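/-
Positive braids on four strands: definitions (helper8).

State = (a, m, b) : the three coordinates of the reduced Burau module in the gauge
`a = c1`, `b = c3`, `m = s c2 / (1 + q)`, `q = s ^ 2`.
-/
import Mathlib

namespace Pool.Agent.Helper8.S4

open Complex

/-- Weights of the quadratic forms. -/
structure Wt where
  one : ℝ
  be : ℝ
  ga : ℝ
  ap : ℝ
  bp : ℝ
  gp : ℝ
  lam : ℝ
  R1 : ℝ
  l2 : ℝ
  R2 : ℝ

/-- A state. -/
structure St where
  a : ℂ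
  m : ℂ
  b : ℂ

/-- Letter 1. -/
def S1 (q : ℂ) (x : St) : St := ⟨-q * x.a + (1 + q) * x.m, x.m, x.b⟩
/-- Letter 2. -/
noncomputable def S2 (q : ℂ) (x : St) : St := ⟨x.a, -q * x.m + q / (1 + q) * (x.a + x.b), x.b⟩
/-- Letter 3. -/
def S3 (q : ℂ) (x : St) : St := ⟨x.a, x.m, -q * x.b + (1 + q) * x.m⟩

/-- The mirror. -/
def mir (x : St) : St := ⟨x.b, x.m, x.a⟩

/-- One letter of a word (`0`, `1`, `2` are the letters 1, 2, 3). -/
noncomputable def step (q : ℂ) (i : Fin 3) (x : St) : St :=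
  if i = 0 then S1 q x else if i = 1 then S2 q x else S3 q x

/-- A word acts, the last letter first. -/
noncomputable def act (q : ℂ) (l : List (Fin 3)) (x : St) : St := l.foldr (step q) x

/-- The size of a state. -/
noncomputable def St.size (x : St) : ℝ := ‖x.a‖ + ‖x.m‖ + ‖x.b‖

/-- The common part: `x̂ = m - C (a + b)`, `W |x̂| ^ 2`, multiplied out. -/
noncomputable def hx (q : ℂ) (Q : ℝ) (x : St) : ℝ :=
  normSq ((1 + q) ^ 2 * x.m - q * (x.a + x.b)) / (Q * normSq (1 + q))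

/-- The form after a block which follows a block of letters 1. -/
noncomputable def H1 (q : ℂ) (Q : ℝ) (w : Wt) (x : St) : ℝ :=
  w.one * hx q Q x + w.be * normSq ((1 + q + q ^ 2) * x.a - q * x.b) / normSq (1 + q + q ^ 2)
    + w.ga * normSq (1 + q) ^ 2 * normSq x.b / normSq (1 + q + q ^ 2)

/-- The form after a block which follows a block of letters 3. -/
noncomputable def H3 (q : ℂ) (Q : ℝ) (w : Wt) (x : St) : ℝ := H1 q Q w (mir x)

/-- The form after a block which follows a block with both letters 1 and 3. -/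
noncomputable def H13 (q : ℂ) (Q : ℝ) (w : Wt) (x : St) : ℝ :=
  w.ap * hx q Q x + w.bp / 4 * normSq (x.a + x.b) + w.gp / 4 * normSq (x.a - x.b)

/-- The intermediate form after at least two letters 1. -/
noncomputable def K1 (q : ℂ) (w : Wt) (x : St) : ℝ :=
  w.lam * normSq (x.a - x.m) + w.R1 * normSq ((1 + q + q ^ 2) * x.m - q * x.b) / normSq (1 + q + q ^ 2)
    + w.ga * normSq (1 + q) ^ 2 * normSq x.b / normSq (1 + q + q ^ 2)

/-- The intermediate form after at least three letters 1, 3 with both present. -/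
noncomputable def K13 (w : Wt) (x : St) : ℝ :=
  w.l2 * (normSq (x.a - x.m) + normSq (x.b - x.m)) + w.R2 * normSq x.m

/-- `H3 = F3` in the coordinates `x̂ = x / e1`, `a = e3 a2`, `b = e1 u + q a2`. -/
noncomputable def F3 (q : ℂ) (Q : ℝ) (w : Wt) (x u a : ℂ) : ℝ :=
  w.one * normSq x / Q + w.be * normSq (1 + q) * normSq u + w.ga * normSq (1 + q) ^ 2 * normSq a

/-- `H13 = F13` in the coordinates `x̂ = x / e1`, `a = e1 a'`, `b = e1 b'`. -/
noncomputable def F13 (q : ℂ) (Q : ℝ) (w : Wt) (x a b : ℂ) : ℝ :=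
  w.ap * normSq x / Q + w.bp / 4 * normSq (1 + q) * normSq (a + b)
    + w.gp / 4 * normSq (1 + q) * normSq (a - b)

/-- The list of inequalities. -/
structure LMI (q : ℂ) (Q : ℝ) (w : Wt) : Prop where
  T1 : ∀ h Y : ℂ, w.one * Q / normSq (1 + q) * normSq ((1 + q + q ^ 2) * h - q * Y)
    + w.be * normSq (h + Y) ≤ w.R1 * normSq h + w.lam * normSq Y
  T2v1 : ∀ x u : ℂ, w.lam * Q ^ 4 / normSq (1 + q) * normSq (-x + (1 + q + q ^ 2) * u)
    + w.R1 / normSq (1 + q) * normSq (x + q * u) ≤ F3 q Q w x u 0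
  T2v3 : ∀ x u a : ℂ,
    w.lam * Q ^ 4 / normSq (1 + q) * normSq (-x - q * u + (1 + q) * (1 + q ^ 2) * a)
    + w.R1 / (normSq (1 + q) * normSq (1 + q + q ^ 2))
      * normSq ((1 + q + q ^ 2) * x - q ^ 2 * u + q * (1 + q) * (1 + q ^ 2) * a)
    + w.ga * normSq (1 + q) ^ 2 / normSq (1 + q + q ^ 2) * normSq ((1 + q) * u + q * a)
    ≤ F3 q Q w x u a
  T2v13 : ∀ x a b : ℂ,
    w.lam * Q ^ 4 / normSq (1 + q) * normSq (-x + (1 + q + q ^ 2) * a - q * b)
    + w.R1 / (normSq (1 + q) * normSq (1 + q + q ^ 2))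
      * normSq ((1 + q + q ^ 2) * x + q * (1 + q + q ^ 2) * a - q ^ 2 * b)
    + w.ga * normSq (1 + q) ^ 3 / normSq (1 + q + q ^ 2) * normSq b
    ≤ F13 q Q w x a b
  T3v1 : ∀ x u : ℂ, w.one * Q / normSq (1 + q) * normSq (x + q * (1 + q + q ^ 2) * u)
    + w.be * normSq (x - q ^ 2 * u) ≤ F3 q Q w x u 0
  T3v3 : ∀ x u a : ℂ,
    w.one * Q / normSq (1 + q) * normSq (x - q ^ 2 * u + q * (1 + q) * (1 + q ^ 2) * a)
    + w.be / normSq (1 + q + q ^ 2)
      * normSq ((1 + q + q ^ 2) * x + q ^ 3 * u - q ^ 2 * (q * (1 + q + q ^ 2) + 1) * a)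
    + w.ga * normSq (1 + q) ^ 2 / normSq (1 + q + q ^ 2) * normSq ((1 + q) * u + q * a)
    ≤ F3 q Q w x u a
  T3v13 : ∀ x a b : ℂ,
    w.one * Q / normSq (1 + q) * normSq (x + q * (1 + q + q ^ 2) * a - q ^ 2 * b)
    + w.be / normSq (1 + q + q ^ 2)
      * normSq ((1 + q + q ^ 2) * x - q ^ 2 * (1 + q + q ^ 2) * a + q ^ 3 * b)
    + w.ga * normSq (1 + q) ^ 3 / normSq (1 + q + q ^ 2) * normSq b
    ≤ F13 q Q w x a b
  T4K : ∀ m y : ℂ, w.ap * Q / normSq (1 + q) * normSq ((1 + q ^ 2) * m - 2 * q * y)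
    + w.bp * normSq (m + y) ≤ w.R2 * normSq m + 2 * w.l2 * normSq y
  T4Ka : w.gp ≤ 2 * w.l2
  T4b13 : ∀ x a b : ℂ,
    w.l2 * Q ^ 4 / normSq (1 + q) * normSq (-x + (1 + q + q ^ 2) * a - q * b)
    + w.l2 * Q ^ 2 / normSq (1 + q) * normSq (-x - q * a + (1 + q + q ^ 2) * b)
    + w.R2 / normSq (1 + q) * normSq (x + q * a + q * b) ≤ F13 q Q w x a b
  T4b1 : ∀ x u a : ℂ,
    w.l2 * Q ^ 4 / normSq (1 + q) * normSq (-x + (1 + q + q ^ 2) * u)
    + w.l2 * Q ^ 2 / normSq (1 + q) * normSq (-x - q * u + (1 + q) * (1 + q ^ 2) * a)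
    + w.R2 / normSq (1 + q) * normSq (x + q * u + q * (1 + q) * a) ≤ F3 q Q w x u a
  T4c1 : ∀ x u a : ℂ,
    w.l2 * Q ^ 2 / normSq (1 + q) * normSq (-x + (1 + q + q ^ 2) * u)
    + w.l2 * Q ^ 4 / normSq (1 + q) * normSq (-x - q * u + (1 + q) * (1 + q ^ 2) * a)
    + w.R2 / normSq (1 + q) * normSq (x + q * u + q * (1 + q) * a) ≤ F3 q Q w x u a
  T5v13 : ∀ x s : ℂ,
    w.ap * Q / normSq (1 + q) * normSq ((1 - q) * x + q * (1 + q ^ 2) * s)
    + w.bp / 4 * normSq (2 * x + q * (1 - q) * s)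
    ≤ w.ap * normSq x / Q + w.bp / 4 * normSq (1 + q) * normSq s
  T5v1 : ∀ x u a : ℂ,
    w.ap * Q / normSq (1 + q)
      * normSq ((1 - q) * x + q * (1 + q ^ 2) * u + q * (1 + q) * (1 + q ^ 2) * a)
    + w.bp / 4 * normSq (2 * x + q * (1 - q) * u + q * (1 - q ^ 2) * a)
    + w.gp / 4 * Q ^ 2 * normSq ((1 + q) * u - (1 + q ^ 2) * a) ≤ F3 q Q w x u a

/-- All weights are positive. -/
structure Wt.Pos (w : Wt) : Prop where
  one : 0 < w.one
  be : 0 < w.be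
  ga : 0 < w.ga
  ap : 0 < w.ap
  bp : 0 < w.bp
  gp : 0 < w.gp
  lam : 0 < w.lam
  R1 : 0 < w.R1
  l2 : 0 < w.l2
  R2 : 0 < w.R2

/-- TARGET of helper29: the semigroup generated by the three letters is bounded. -/
def TransitionsTarget : Prop :=
  ∀ (q : ℂ) (Q : ℝ) (w : Wt), 0 < Q → Q < 1 → normSq q = Q ^ 2 → 1 + q ≠ 0 →
    1 + q + q ^ 2 ≠ 0 → w.Pos → LMI q Q w →
    ∃ K : ℝ, ∀ (l : List (Fin 3)) (x : St), (act q l x).size ≤ K * x.size

end Pool.Agent.Helper8.S4
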