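/-
Positive braids on four strands: the checker (helper8).
Integer polynomials as lists, polynomials over `ℤ[j]`, `j ^ 2 = -3`, Gram matrices of sums of
weighted squares, their minors, and positivity on `(0, 1)` by Möbius coefficients.
-/
import Mathlib

namespace Pool.Agent.Helper8.S4

open Complex

/-! ### integer polynomials -/

def padd : List ℤ → List ℤ → List ℤ
  | [], b => b
  | x :: a, [] => x :: a
  | x :: a, y :: b => (x + y) :: padd a b

def pscal (c : ℤ) : List ℤ → List ℤ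
  | [] => []
  | x :: a => (c * x) :: pscal c a

def pmul : List ℤ → List ℤ → List ℤ
  | [], _ => []
  | x :: a, b => padd (pscal x b) (0 :: pmul a b)

def ppow (p : List ℤ) : ℕ → List ℤ
  | 0 => [1]
  | n + 1 => pmul p (ppow p n)

/-- Value of an integer polynomial. -/
def ev : List ℤ → ℝ → ℝ
  | [], _ => 0
  | c :: a, x => (c : ℝ) + x * ev a x

lemma ev_padd (a b : List ℤ) (x : ℝ) : ev (padd a b) x = ev a x + ev b x := by
  induction a generalizing b with
  | nil => simp [padd, ev]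
  | cons c a ih =>
    cases b with
    | nil => simp [padd, ev]
    | cons d b => simp only [padd, ev, ih]; push_cast; ring

lemma ev_pscal (c : ℤ) (a : List ℤ) (x : ℝ) : ev (pscal c a) x = c * ev a x := by
  induction a with
  | nil => simp [pscal, ev]
  | cons d a ih => simp only [pscal, ev, ih]; push_cast; ring

lemma ev_pmul (a b : List ℤ) (x : ℝ) : ev (pmul a b) x = ev a x * ev b x := by
  induction a with
  | nil => simp [pmul, ev]
  | cons d a ih => simp only [pmul, ev, ih, ev_padd, ev_pscal]; push_cast; ring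

lemma ev_ppow (a : List ℤ) (n : ℕ) (x : ℝ) : ev (ppow a n) x = ev a x ^ n := by
  induction n with
  | zero => simp [ppow, ev]
  | succ n ih => simp only [ppow, ev_pmul, ih]; ring

/-! ### positivity on an interval -/

/-- Multiplication by `A + B y`. -/
def lin (A B : ℤ) (R : List ℤ) : List ℤ := padd (pscal A R) (0 :: pscal B R)

/-- `(t ^ (n-1) p(x), t ^ n)` for `x = (A + B y) / t`, `t = d (1 + y)`, `n` the length of `p`. -/
def mob (A B d : ℤ) : List ℤ → List ℤ × List ℤ
  | [] => ([], [1])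
  | c :: p =>
    let r := mob A B d p
    (padd (pscal c r.2) (lin A B r.1), lin d d r.2)

lemma ev_lin (A B : ℤ) (R : List ℤ) (y : ℝ) : ev (lin A B R) y = (A + B * y) * ev R y := by
  simp only [lin, ev_padd, ev_pscal, ev]; push_cast; ring

lemma mob_two (A B d : ℤ) (p : List ℤ) (y : ℝ) :
    ev (mob A B d p).2 y = ((d : ℝ) * (1 + y)) ^ p.length := by
  induction p with
  | nil => simp [mob, ev]
  | cons c p ih => simp only [mob, ev_lin, ih, List.length_cons]; ring

lemma mob_one (A B d : ℤ) (p : List ℤ) (x y : ℝ) (hx : x * ((d : ℝ) * (1 + y)) = A + B * y) :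
    ev (mob A B d p).1 y * ((d : ℝ) * (1 + y)) = ((d : ℝ) * (1 + y)) ^ p.length * ev p x := by
  induction p with
  | nil => simp [mob, ev]
  | cons c p ih =>
    simp only [mob, ev_lin, ev_padd, ev_pscal, mob_two, List.length_cons, ev, add_mul, ← hx]
    have : x * (↑d * (1 + y)) * ev (mob A B d p).1 y * (↑d * (1 + y))
        = x * (↑d * (1 + y)) * (((d : ℝ) * (1 + y)) ^ p.length * ev p x) := by
      rw [← ih]; ring
    rw [this]; ring

/-- All coefficients nonnegative. -/
def nonneg : List ℤ → Bool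
  | [] => true
  | c :: a => decide (0 ≤ c) && nonneg a

/-- All coefficients nonnegative and one of them positive. -/
def posl : List ℤ → Bool
  | [] => false
  | c :: a => (decide (0 ≤ c) && posl a) || (decide (0 < c) && nonneg a)

lemma nonneg_ev (a : List ℤ) (h : nonneg a = true) (y : ℝ) (hy : 0 ≤ y) : 0 ≤ ev a y := by
  induction a with
  | nil => simp [ev]
  | cons c a ih =>
    simp only [nonneg, Bool.and_eq_true, decide_eq_true_eq] at h
    simp only [ev]
    have h1 : (0 : ℝ) ≤ c := by exact_mod_cast h.1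
    have h2 := mul_nonneg hy (ih h.2)
    linarith

lemma posl_ev (a : List ℤ) (h : posl a = true) (y : ℝ) (hy : 0 < y) : 0 < ev a y := by
  induction a with
  | nil => simp [posl] at h
  | cons c a ih =>
    simp only [posl, Bool.or_eq_true, Bool.and_eq_true, decide_eq_true_eq] at h
    simp only [ev]
    rcases h with h | h
    · have h1 : (0 : ℝ) ≤ c := by exact_mod_cast h.1
      have h2 := mul_pos hy (ih h.2)
      linarith
    · have h1 : (0 : ℝ) < c := by exact_mod_cast h.1
      have h2 := mul_nonneg hy.le (nonneg_ev a h.2 y hy.le)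
      linarith

/-- Value at a rational point times a positive number: `d ^ (n) p(A/d)`. -/
def evq' (A d : ℤ) : List ℤ → ℤ × ℤ
  | [] => (0, 1)
  | c :: p => let r := evq' A d p; (c * (d * r.2) + A * r.1, d * r.2)

/-- `p > 0` on the open interval `(l, r)`, where the list `bs` gives the breakpoints
`l < b1 < b2 < … < r` as numerators over `d`. -/
def posOn (p : List ℤ) (d : ℤ) : ℤ → List ℤ → Bool
  | _, [] => true
  | l, r :: bs =>
    decide (l < r) && posl (mob l r d p).1 && (bs.isEmpty || posl [(evq' r d p).1]) && posOn p d r bs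

lemma mob_pos (p : List ℤ) (A B d : ℤ) (hd : 0 < d) (hAB : A < B) (h : posl (mob A B d p).1 = true)
    (x : ℝ) (h1 : (A : ℝ) / d < x) (h2 : x < (B : ℝ) / d) : 0 < ev p x := by
  have hd' : (0 : ℝ) < d := by exact_mod_cast hd
  have hA : (A : ℝ) < d * x := by rw [div_lt_iff₀ hd'] at h1; linarith
  have hB : d * x < (B : ℝ) := by rw [lt_div_iff₀ hd'] at h2; linarith
  set y : ℝ := (d * x - A) / (B - d * x) with hy
  have hyp : 0 < y := div_pos (by linarith) (by linarith)
  have hne : (B - d * x : ℝ) ≠ 0 := by linarith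
  have hxy : x * ((d : ℝ) * (1 + y)) = A + B * y := by
    have hy2 : y * (B - d * x) = d * x - A := by rw [hy]; field_simp
    linear_combination (-1) * hy2
  have h3 := mob_one A B d p x y hxy
  have h4 := posl_ev _ h y hyp
  have h5 : (0 : ℝ) < (d : ℝ) * (1 + y) := by positivity
  have h6 : 0 < ((d : ℝ) * (1 + y)) ^ p.length * ev p x := by rw [← h3]; positivity
  exact (pos_iff_pos_of_mul_pos h6).1 (by positivity)

lemma evq'_spec (A d : ℤ) (hd : 0 < d) (p : List ℤ) :
    ((evq' A d p).1 : ℝ) = (evq' A d p).2 * ev p ((A : ℝ) / d) ∧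
      0 < (evq' A d p).2 := by
  have hd' : (0 : ℝ) < d := by exact_mod_cast hd
  induction p with
  | nil => simp [evq', ev]
  | cons c p ih =>
    obtain ⟨h1, h2⟩ := ih
    refine ⟨?_, ?_⟩
    · simp only [evq', ev]
      push_cast
      rw [h1]; field_simp
    · simp only [evq']; positivity

lemma posOn_ev (p : List ℤ) (d : ℤ) (hd : 0 < d) (bs : List ℤ) (l : ℤ)
    (h : posOn p d l bs = true) (x : ℝ) (h1 : (l : ℝ) / d < x)
    (h2 : x < ((bs.getLastD l : ℤ) : ℝ) / d) : 0 < ev p x := by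
  have hd' : (0 : ℝ) < d := by exact_mod_cast hd
  induction bs generalizing l with
  | nil => simp at h2; linarith
  | cons r bs ih =>
    simp only [posOn, Bool.and_eq_true, Bool.or_eq_true, decide_eq_true_eq] at h
    obtain ⟨⟨⟨hlr, hm⟩, he⟩, hr⟩ := h
    rcases lt_trichotomy x ((r : ℝ) / d) with hx | hx | hx
    · exact mob_pos p l r d hd hlr hm x h1 hx
    · rcases he with he | he
      · rw [List.isEmpty_iff] at he
        subst he
        simp at h2; linarith
      · simp only [posl, nonneg, Bool.and_eq_true, Bool.or_eq_true, decide_eq_true_eq] at he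
        have he' : 0 < (evq' r d p).1 := by
          rcases he with he | he
          · exact absurd he.2 (by decide)
          · exact he.1
        obtain ⟨h3, h4⟩ := evq'_spec r d hd p
        have h5 : (0 : ℝ) < (evq' r d p).1 := by exact_mod_cast he'
        have h6 : (0 : ℝ) < (evq' r d p).2 := by exact_mod_cast h4
        rw [hx]
        have h7 : 0 < ((evq' r d p).2 : ℝ) * ev p ((r : ℝ) / d) := by
          rw [← h3]; exact h5
        exact (pos_iff_pos_of_mul_pos h7).1 (by positivity)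
    · refine ih r hr hx ?_
      rw [List.getLastD_cons] at h2
      exact h2

/-! ### polynomials over `ℤ[j]` -/

/-- `(a, b)` stands for `a + b j`, `j ^ 2 = -3`. -/
abbrev CP := List ℤ × List ℤ

def cadd (a b : CP) : CP := (padd a.1 b.1, padd a.2 b.2)
def cmul (a b : CP) : CP :=
  (padd (pmul a.1 b.1) (pscal (-3) (pmul a.2 b.2)), padd (pmul a.1 b.2) (pmul a.2 b.1))
def cconj (a : CP) : CP := (a.1, pscal (-1) a.2)
def cscal (p : List ℤ) (a : CP) : CP := (pmul p a.1, pmul p a.2)
def nsq (a : CP) : List ℤ := padd (pmul a.1 a.1) (pscal 3 (pmul a.2 a.2))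

/-- Value: `t` is a square root of `3` (of any sign), `j = i t`. -/
def cev (a : CP) (x t : ℝ) : ℂ := ⟨ev a.1 x, ev a.2 x * t⟩

lemma cev_add (a b : CP) (x t : ℝ) : cev (cadd a b) x t = cev a x t + cev b x t := by
  apply Complex.ext <;> simp [cev, cadd, ev_padd]; ring

lemma cev_mul (a b : CP) (x t : ℝ) (ht : t ^ 2 = 3) :
    cev (cmul a b) x t = cev a x t * cev b x t := by
  apply Complex.ext
  · simp only [cev, cmul, ev_padd, ev_pmul, ev_pscal, Complex.mul_re]; push_cast
    linear_combination (ev a.2 x * ev b.2 x) * ht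
  · simp only [cev, cmul, ev_padd, ev_pmul, ev_pscal, Complex.mul_im]; ring

lemma cev_conj (a : CP) (x t : ℝ) : cev (cconj a) x t = (starRingEnd ℂ) (cev a x t) := by
  apply Complex.ext <;> simp [cev, cconj, ev_pscal]

lemma cev_scal (p : List ℤ) (a : CP) (x t : ℝ) :
    cev (cscal p a) x t = (ev p x : ℂ) * cev a x t := by
  apply Complex.ext <;> simp [cev, cscal, ev_pmul]; ring

lemma normSq_cev (a : CP) (x t : ℝ) (ht : t ^ 2 = 3) : normSq (cev a x t) = ev (nsq a) x := by
  simp only [cev, nsq, Complex.normSq_mk, ev_padd, ev_pmul, ev_pscal]; push_cast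
  linear_combination (ev a.2 x ^ 2) * ht

/-! ### Hermitian forms -/

/-- The Hermitian form with given entries. -/
noncomputable def HF (h11 h22 h33 : ℝ) (h12 h13 h23 : ℂ) (v1 v2 v3 : ℂ) : ℝ :=
  h11 * normSq v1 + h22 * normSq v2 + h33 * normSq v3
    + 2 * (h12 * ((starRingEnd ℂ) v1 * v2)).re + 2 * (h13 * ((starRingEnd ℂ) v1 * v3)).re
    + 2 * (h23 * ((starRingEnd ℂ) v2 * v3)).re

lemma HF_nonneg {h11 h22 h33 : ℝ} {h12 h13 h23 : ℂ} (p1 : 0 < h11)
    (p2 : 0 < h11 * h22 - normSq h12)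
    (p3 : 0 ≤ h11 * h22 * h33 + 2 * (h12 * h23 * (starRingEnd ℂ) h13).re - h11 * normSq h23
      - h22 * normSq h13 - h33 * normSq h12) (v1 v2 v3 : ℂ) :
    0 ≤ HF h11 h22 h33 h12 h13 h23 v1 v2 v3 := by
  have key : h11 * (h11 * h22 - normSq h12) * HF h11 h22 h33 h12 h13 h23 v1 v2 v3
      = (h11 * h22 - normSq h12) * normSq (h11 * v1 + h12 * v2 + h13 * v3)
        + normSq (((h11 * h22 - normSq h12 : ℝ) : ℂ) * v2
            + (h11 * h23 - (starRingEnd ℂ) h12 * h13) * v3)
        + h11 * (h11 * h22 * h33 + 2 * (h12 * h23 * (starRingEnd ℂ) h13).re - h11 * normSq h23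
      - h22 * normSq h13 - h33 * normSq h12) * normSq v3 := by
    simp only [HF, Complex.normSq_apply, Complex.add_re, Complex.add_im, Complex.sub_re,
      Complex.sub_im, Complex.mul_re, Complex.mul_im, Complex.conj_re, Complex.conj_im,
      Complex.ofReal_re, Complex.ofReal_im]
    ring
  have h1 := mul_nonneg p2.le (normSq_nonneg (h11 * v1 + h12 * v2 + h13 * v3))
  have h2 := normSq_nonneg (((h11 * h22 - normSq h12 : ℝ) : ℂ) * v2
            + (h11 * h23 - (starRingEnd ℂ) h12 * h13) * v3)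
  have h3 := mul_nonneg (mul_nonneg p1.le p3) (normSq_nonneg v3)
  have h4 : 0 ≤ h11 * (h11 * h22 - normSq h12) * HF h11 h22 h33 h12 h13 h23 v1 v2 v3 := by
    rw [key]; linarith
  exact nonneg_of_mul_nonneg_right h4 (by positivity)

lemma HF_nonneg2 {h11 h22 h33 : ℝ} {h12 h13 h23 : ℂ} (p1 : 0 < h11)
    (p2 : 0 < h11 * h22 - normSq h12) (v1 v2 : ℂ) :
    0 ≤ HF h11 h22 h33 h12 h13 h23 v1 v2 0 := by
  have key : h11 * HF h11 h22 h33 h12 h13 h23 v1 v2 0
      = normSq (h11 * v1 + h12 * v2) + (h11 * h22 - normSq h12) * normSq v2 := by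
    simp only [HF, Complex.normSq_apply, Complex.add_re, Complex.add_im,
      Complex.mul_re, Complex.mul_im, Complex.conj_re, Complex.conj_im,
      Complex.ofReal_re, Complex.ofReal_im, Complex.zero_re, Complex.zero_im]
    ring
  have h1 := normSq_nonneg (h11 * v1 + h12 * v2)
  have h3 := mul_nonneg p2.le (normSq_nonneg v2)
  have h4 : 0 ≤ h11 * HF h11 h22 h33 h12 h13 h23 v1 v2 0 := by
    rw [key]; linarith
  exact nonneg_of_mul_nonneg_right h4 p1

/-! ### the ray and sums of weighted squares -/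

def pD : List ℤ := [1, -1, 1]
def pP : List ℤ := [1, -2, 6, -2, 1]
def pM : List ℤ := padd (pmul [1, 0, -1, 0, 1] (pmul pD pD))
  (padd (pmul (pmul [1, 0, 1] pD) (pmul [0, 1] [-1, 4, -1])) (pmul (pmul [0, 1] [-1, 4, -1]) (pmul [0, 1] [-1, 4, -1])))
def pK : List ℤ := pscal 2 pD
def qh : CP := (pmul [0, 1] [-1, 4, -1], pmul [0, -1] [1, 0, -1])

/-- `Σ r_k q^k` times `K ^ m`. -/
def hat : ℕ → List ℤ → CP
  | _, [] => ([], [])
  | 0, c :: _ => ([c], [])
  | m + 1, c :: r => cadd (pscal c (ppow pK (m + 1)), []) (cmul qh (hat m r))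

/-- Value of an integer polynomial at a complex number. -/
def evc : List ℤ → ℂ → ℂ
  | [], _ => 0
  | c :: a, q => (c : ℂ) + q * evc a q

lemma cev_hat (m : ℕ) (r : List ℤ) (hr : r.length ≤ m + 1) (x t : ℝ) (ht : t ^ 2 = 3) (q : ℂ)
    (hq : (ev pK x : ℂ) * q = cev qh x t) :
    cev (hat m r) x t = (ev pK x : ℂ) ^ m * evc r q := by
  induction m generalizing r with
  | zero =>
    cases r with
    | nil => simp [hat, evc, cev, ev]; rfl
    | cons c r =>
      have : r = [] := by simpa using hr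
      subst this
      simp only [hat, evc, cev, ev]
      apply Complex.ext <;> simp
  | succ m ih =>
    cases r with
    | nil => simp [hat, evc, cev, ev]; rfl
    | cons c r =>
      have h1 := ih r (by simpa using hr)
      rw [hat, cev_add, cev_mul _ _ _ _ ht, h1, ← hq]
      have h2 : cev (pscal c (ppow pK (m + 1)), []) x t = (c : ℂ) * (ev pK x : ℂ) ^ (m + 1) := by
        apply Complex.ext
        · simp only [cev, ev_pscal, ev_ppow]
          rw [← Complex.ofReal_pow, ← Complex.ofReal_intCast, Complex.re_ofReal_mul,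
            Complex.ofReal_re]
        · simp only [cev, ev]
          rw [← Complex.ofReal_pow, ← Complex.ofReal_intCast, Complex.im_ofReal_mul,
            Complex.ofReal_im]
          ring
      rw [h2, evc]; ring

/-- A weighted square. -/
structure Term where
  num : ℤ
  w : List ℤ
  a : ℕ
  b : ℕ
  c : ℕ
  d : ℕ
  m : ℕ
  r1 : List ℤ
  r2 : List ℤ
  r3 : List ℤ

def Term.coef (s : Term) : List ℤ :=
  pscal s.num (pmul s.w (pmul (ppow [0, 1] s.a) (pmul (ppow pD s.b)
    (pmul (ppow pP s.c) (ppow pM s.d)))))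

def Term.ok (s : Term) : Bool :=
  decide (s.r1.length ≤ s.m + 1) && decide (s.r2.length ≤ s.m + 1) && decide (s.r3.length ≤ s.m + 1)

noncomputable def Term.val (s : Term) (x : ℝ) (q v1 v2 v3 : ℂ) : ℝ :=
  (s.num : ℝ) * ev s.w x * x ^ s.a * ev pD x ^ s.b * ev pP x ^ s.c * ev pM x ^ s.d
    * (ev pK x ^ s.m) ^ 2 * normSq (evc s.r1 q * v1 + evc s.r2 q * v2 + evc s.r3 q * v3)

/-- Gram matrix entries. -/
structure Gram where
  h11 : List ℤ
  h22 : List ℤ
  h33 : List ℤ
  h12 : CP
  h13 : CP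
  h23 : CP
deriving DecidableEq

def gram : List Term → Gram
  | [] => ⟨[], [], [], ([], []), ([], []), ([], [])⟩
  | s :: l =>
    let g := gram l
    let c := s.coef
    let r1 := hat s.m s.r1
    let r2 := hat s.m s.r2
    let r3 := hat s.m s.r3
    ⟨padd (pmul c (nsq r1)) g.h11, padd (pmul c (nsq r2)) g.h22, padd (pmul c (nsq r3)) g.h33,
      cadd (cscal c (cmul (cconj r1) r2)) g.h12, cadd (cscal c (cmul (cconj r1) r3)) g.h13,
      cadd (cscal c (cmul (cconj r2) r3)) g.h23⟩

noncomputable def Gram.form (g : Gram) (x t : ℝ) (v1 v2 v3 : ℂ) : ℝ :=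
  HF (ev g.h11 x) (ev g.h22 x) (ev g.h33 x) (cev g.h12 x t) (cev g.h13 x t) (cev g.h23 x t)
    v1 v2 v3

noncomputable def vals (l : List Term) (x : ℝ) (q v1 v2 v3 : ℂ) : ℝ :=
  (l.map (fun s => s.val x q v1 v2 v3)).sum

lemma coef_ev (s : Term) (x : ℝ) : ev s.coef x
    = (s.num : ℝ) * ev s.w x * x ^ s.a * ev pD x ^ s.b * ev pP x ^ s.c * ev pM x ^ s.d := by
  simp only [Term.coef, ev_pscal, ev_pmul, ev_ppow]
  have : ev [0, 1] x = x := by simp [ev]
  rw [this]; ring

lemma HF_sq (c : ℝ) (R1 R2 R3 v1 v2 v3 : ℂ) :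
    c * normSq (R1 * v1 + R2 * v2 + R3 * v3)
      = HF (c * normSq R1) (c * normSq R2) (c * normSq R3) (c * ((starRingEnd ℂ) R1 * R2))
          (c * ((starRingEnd ℂ) R1 * R3)) (c * ((starRingEnd ℂ) R2 * R3)) v1 v2 v3 := by
  simp only [HF, Complex.normSq_apply, Complex.add_re, Complex.add_im,
      Complex.mul_re, Complex.mul_im, Complex.conj_re, Complex.conj_im,
      Complex.ofReal_re, Complex.ofReal_im]
  ring

lemma HF_add (a1 a2 a3 b1 b2 b3 : ℝ) (c1 c2 c3 d1 d2 d3 v1 v2 v3 : ℂ) :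
    HF (a1 + b1) (a2 + b2) (a3 + b3) (c1 + d1) (c2 + d2) (c3 + d3) v1 v2 v3
      = HF a1 a2 a3 c1 c2 c3 v1 v2 v3 + HF b1 b2 b3 d1 d2 d3 v1 v2 v3 := by
  simp only [HF, add_mul, Complex.add_re]; ring

lemma vals_eq (l : List Term) (hl : l.all Term.ok = true) (x t : ℝ) (ht : t ^ 2 = 3) (q : ℂ)
    (hq : (ev pK x : ℂ) * q = cev qh x t) (v1 v2 v3 : ℂ) :
    vals l x q v1 v2 v3 = (gram l).form x t v1 v2 v3 := by
  induction l with
  | nil => simp [vals, gram, Gram.form, HF, ev, cev]
  | cons s l ih =>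
    simp only [List.all_cons, Bool.and_eq_true] at hl
    have hs := hl.1
    simp only [Term.ok, Bool.and_eq_true, decide_eq_true_eq] at hs
    have h1 := ih hl.2
    have h2 : vals (s :: l) x q v1 v2 v3 = s.val x q v1 v2 v3 + vals l x q v1 v2 v3 := by
      simp [vals]
    rw [h2, h1]
    simp only [Gram.form, gram, ev_padd, ev_pmul, cev_add, cev_scal, cev_mul _ _ _ _ ht, cev_conj]
    rw [HF_add]
    congr 1
    rw [← normSq_cev _ x t ht, ← normSq_cev _ x t ht, ← normSq_cev _ x t ht]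
    rw [cev_hat _ _ hs.1.1 x t ht q hq, cev_hat _ _ hs.1.2 x t ht q hq,
      cev_hat _ _ hs.2 x t ht q hq]
    rw [← HF_sq]
    have h3 : (ev pK x : ℂ) ^ s.m * evc s.r1 q * v1 + (ev pK x : ℂ) ^ s.m * evc s.r2 q * v2
        + (ev pK x : ℂ) ^ s.m * evc s.r3 q * v3
        = ((ev pK x ^ s.m : ℝ) : ℂ) * (evc s.r1 q * v1 + evc s.r2 q * v2 + evc s.r3 q * v3) := by
      push_cast; ring
    rw [h3, Complex.normSq_mul, Complex.normSq_ofReal, coef_ev, Term.val]
    ring

/-! ### minors -/

def Gram.m1 (g : Gram) : List ℤ := g.h11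
def Gram.m2 (g : Gram) : List ℤ := padd (pmul g.h11 g.h22) (pscal (-1) (nsq g.h12))
def Gram.m3 (g : Gram) : List ℤ :=
  padd (padd (pmul (pmul g.h11 g.h22) g.h33)
    (pscal 2 (cmul (cmul g.h12 g.h23) (cconj g.h13)).1))
    (pscal (-1) (padd (pmul g.h11 (nsq g.h23)) (padd (pmul g.h22 (nsq g.h13))
      (pmul g.h33 (nsq g.h12)))))

lemma m2_ev (g : Gram) (x t : ℝ) (ht : t ^ 2 = 3) :
    ev g.m2 x = ev g.h11 x * ev g.h22 x - normSq (cev g.h12 x t) := by
  rw [Gram.m2, ev_padd, ev_pmul, ev_pscal, normSq_cev _ _ _ ht]; push_cast; ring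

lemma m3_ev (g : Gram) (x t : ℝ) (ht : t ^ 2 = 3) :
    ev g.m3 x = ev g.h11 x * ev g.h22 x * ev g.h33 x
      + 2 * (cev g.h12 x t * cev g.h23 x t * (starRingEnd ℂ) (cev g.h13 x t)).re
      - ev g.h11 x * normSq (cev g.h23 x t) - ev g.h22 x * normSq (cev g.h13 x t)
      - ev g.h33 x * normSq (cev g.h12 x t) := by
  rw [← cev_conj, ← cev_mul _ _ _ _ ht, ← cev_mul _ _ _ _ ht]
  rw [normSq_cev _ _ _ ht, normSq_cev _ _ _ ht, normSq_cev _ _ _ ht]
  simp only [Gram.m3, ev_padd, ev_pmul, ev_pscal, cev]; push_cast; ring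

/-- A certified list of terms: three minors. -/
theorem vals_nonneg3 (l : List Term) (hl : l.all Term.ok = true) (x t : ℝ) (ht : t ^ 2 = 3)
    (q : ℂ) (hq : (ev pK x : ℂ) * q = cev qh x t) (v1 v2 v3 : ℂ)
    (p1 : 0 < ev (gram l).m1 x) (p2 : 0 < ev (gram l).m2 x) (p3 : 0 ≤ ev (gram l).m3 x) :
    0 ≤ vals l x q v1 v2 v3 := by
  rw [vals_eq l hl x t ht q hq]
  rw [m2_ev _ _ _ ht] at p2
  rw [m3_ev _ _ _ ht] at p3
  exact HF_nonneg p1 p2 p3 _ _ _

theorem vals_nonneg2 (l : List Term) (hl : l.all Term.ok = true) (x t : ℝ) (ht : t ^ 2 = 3)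
    (q : ℂ) (hq : (ev pK x : ℂ) * q = cev qh x t) (v1 v2 : ℂ)
    (p1 : 0 < ev (gram l).m1 x) (p2 : 0 < ev (gram l).m2 x) :
    0 ≤ vals l x q v1 v2 0 := by
  rw [vals_eq l hl x t ht q hq]
  rw [m2_ev _ _ _ ht] at p2
  exact HF_nonneg2 p1 p2 _ _

end Pool.Agent.Helper8.S4
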