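/-
Positive braids on four strands: the certified lists of weighted squares (helper8).
Each theorem checks the leading principal minors of one Gram matrix on `(0, 1)` in the kernel.
-/
import Pool.Agent.Helper8.S4.Poly

namespace Pool.Agent.Helper8.S4

def wOne : List ℤ := [40]
def wBe : List ℤ := [30, -18, 18]
def wGa : List ℤ := [7, 0, 8]
def wAp : List ℤ := [42, -8, 6]
def wBp : List ℤ := [14, 12, 14]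
def wGp : List ℤ := [92, -24, 12]
def wLam : List ℤ := [140, -90, -10]
def wR1 : List ℤ := [46, -36, 110]
def wL2 : List ℤ := [54, -4, -10]
def wR2 : List ℤ := [32, -14, 62]

/-- The check for three variables. -/
def chk3 (l : List Term) (d : ℤ) (b1 b2 b3 : List ℤ) : Bool :=
  l.all Term.ok &&
    (let g := gram l
     posOn g.m1 d 0 b1 && posOn g.m2 d 0 b2 && posOn g.m3 d 0 b3)

/-- The check for two variables. -/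
def chk2 (l : List Term) (d : ℤ) (b1 b2 : List ℤ) : Bool :=
  l.all Term.ok &&
    (let g := gram l
     posOn g.m1 d 0 b1 && posOn g.m2 d 0 b2)

/-- Common factor: 16 Q^0 D^3 P^1 M^0. -/
def tT1 : List Term :=
  [⟨16, wR1, 0, 3, 1, 0, 0, [1], [], []⟩,
   ⟨16, wLam, 0, 3, 1, 0, 0, [], [1], []⟩,
   ⟨-1, wOne, 1, 0, 0, 0, 2, [1, 1, 1], [0, -1], []⟩,
   ⟨-16, wBe, 0, 3, 1, 0, 0, [1], [1], []⟩]

set_option maxRecDepth 100000 in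
theorem cT1 : chk2 tT1 2 [2] [1, 2] = true := by decide +kernel

/-- Common factor: 16 Q^1 D^3 P^1 M^0. -/
def tT2v1 : List Term :=
  [⟨16, wOne, 0, 3, 1, 0, 0, [1], [], []⟩,
   ⟨16, wBe, 1, 2, 2, 0, 0, [], [1], []⟩,
   ⟨-1, wLam, 5, 0, 0, 0, 2, [-1], [1, 1, 1], []⟩,
   ⟨-4, wR1, 1, 2, 0, 0, 1, [1], [0, 1], []⟩]

set_option maxRecDepth 100000 in
theorem cT2v1 : chk2 tT2v1 1 [1] [1] = true := by decide +kernel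

/-- Common factor: 256 Q^1 D^5 P^1 M^1. -/
def tT2v3 : List Term :=
  [⟨256, wOne, 0, 5, 1, 1, 0, [1], [], []⟩,
   ⟨256, wBe, 1, 4, 2, 1, 0, [], [1], []⟩,
   ⟨256, wGa, 1, 3, 3, 1, 0, [], [], [1]⟩,
   ⟨-4, wLam, 5, 0, 0, 1, 3, [-1], [0, -1], [1, 1, 1, 1]⟩,
   ⟨-1, wR1, 1, 0, 0, 0, 4, [1, 1, 1], [0, 0, -1], [0, 1, 1, 1, 1]⟩,
   ⟨-64, wGa, 1, 3, 3, 0, 1, [], [1, 1], [0, 1]⟩]

set_option maxRecDepth 100000 in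
theorem cT2v3 : chk3 tT2v3 2 [2] [2] [1, 2] = true := by decide +kernel

/-- Common factor: 64 Q^1 D^3 P^1 M^1. -/
def tT2v13 : List Term :=
  [⟨64, wAp, 0, 3, 1, 1, 0, [1], [], []⟩,
   ⟨16, wBp, 1, 2, 2, 1, 0, [], [1], [1]⟩,
   ⟨16, wGp, 1, 2, 2, 1, 0, [], [1], [-1]⟩,
   ⟨-4, wLam, 5, 0, 0, 1, 2, [-1], [1, 1, 1], [0, -1]⟩,
   ⟨-1, wR1, 1, 0, 0, 0, 3, [1, 1, 1], [0, 1, 1, 1], [0, 0, -1]⟩,
   ⟨-64, wGa, 1, 2, 4, 0, 0, [], [], [1]⟩]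

set_option maxRecDepth 100000 in
theorem cT2v13 : chk3 tT2v13 1 [1] [1] [1] = true := by decide +kernel

/-- Common factor: 64 Q^1 D^5 P^1 M^0. -/
def tT3v1 : List Term :=
  [⟨64, wOne, 0, 5, 1, 0, 0, [1], [], []⟩,
   ⟨64, wBe, 1, 4, 2, 0, 0, [], [1], []⟩,
   ⟨-1, wOne, 2, 0, 0, 0, 3, [1], [0, 1, 1, 1], []⟩,
   ⟨-4, wBe, 1, 1, 1, 0, 2, [1], [0, 0, -1], []⟩]

set_option maxRecDepth 100000 in
theorem cT3v1 : chk2 tT3v1 1 [1] [1] = true := by decide +kernel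

/-- Common factor: 1024 Q^1 D^8 P^1 M^1. -/
def tT3v3 : List Term :=
  [⟨1024, wOne, 0, 8, 1, 1, 0, [1], [], []⟩,
   ⟨1024, wBe, 1, 7, 2, 1, 0, [], [1], []⟩,
   ⟨1024, wGa, 1, 6, 3, 1, 0, [], [], [1]⟩,
   ⟨-4, wOne, 2, 1, 0, 1, 4, [1], [0, 0, -1], [0, 1, 1, 1, 1]⟩,
   ⟨-1, wBe, 1, 0, 1, 0, 5, [1, 1, 1], [0, 0, 0, 1], [0, 0, -1, -1, -1, -1]⟩,
   ⟨-256, wGa, 1, 6, 3, 0, 1, [], [1, 1], [0, 1]⟩]

set_option maxRecDepth 100000 in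
theorem cT3v3 : chk3 tT3v3 1 [1] [1] [1] = true := by decide +kernel

/-- Common factor: 256 Q^1 D^6 P^1 M^1. -/
def tT3v13 : List Term :=
  [⟨256, wAp, 0, 6, 1, 1, 0, [1], [], []⟩,
   ⟨64, wBp, 1, 5, 2, 1, 0, [], [1], [1]⟩,
   ⟨64, wGp, 1, 5, 2, 1, 0, [], [1], [-1]⟩,
   ⟨-4, wOne, 2, 1, 0, 1, 3, [1], [0, 1, 1, 1], [0, 0, -1]⟩,
   ⟨-1, wBe, 1, 0, 1, 0, 4, [1, 1, 1], [0, 0, -1, -1, -1], [0, 0, 0, 1]⟩,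
   ⟨-256, wGa, 1, 5, 4, 0, 0, [], [], [1]⟩]

set_option maxRecDepth 100000 in
theorem cT3v13 : chk3 tT3v13 1 [1] [1] [1] = true := by decide +kernel

/-- Common factor: 16 Q^0 D^3 P^1 M^0. -/
def tT4K : List Term :=
  [⟨16, wR2, 0, 3, 1, 0, 0, [1], [], []⟩,
   ⟨32, wL2, 0, 3, 1, 0, 0, [], [1], []⟩,
   ⟨-1, wAp, 1, 0, 0, 0, 2, [1, 0, 1], [0, -2], []⟩,
   ⟨-16, wBp, 0, 3, 1, 0, 0, [1], [1], []⟩]

set_option maxRecDepth 100000 in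
theorem cT4K : chk2 tT4K 1 [1] [1] = true := by decide +kernel

/-- Common factor: 16 Q^1 D^3 P^1 M^0. -/
def tT4b13 : List Term :=
  [⟨16, wAp, 0, 3, 1, 0, 0, [1], [], []⟩,
   ⟨4, wBp, 1, 2, 2, 0, 0, [], [1], [1]⟩,
   ⟨4, wGp, 1, 2, 2, 0, 0, [], [1], [-1]⟩,
   ⟨-1, wL2, 5, 0, 0, 0, 2, [-1], [1, 1, 1], [0, -1]⟩,
   ⟨-1, wL2, 3, 0, 0, 0, 2, [-1], [0, -1], [1, 1, 1]⟩,
   ⟨-4, wR2, 1, 2, 0, 0, 1, [1], [0, 1], [0, 1]⟩]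

set_option maxRecDepth 100000 in
theorem cT4b13 : chk3 tT4b13 1 [1] [1] [1] = true := by decide +kernel

/-- Common factor: 64 Q^1 D^5 P^1 M^0. -/
def tT4b1 : List Term :=
  [⟨64, wOne, 0, 5, 1, 0, 0, [1], [], []⟩,
   ⟨64, wBe, 1, 4, 2, 0, 0, [], [1], []⟩,
   ⟨64, wGa, 1, 3, 3, 0, 0, [], [], [1]⟩,
   ⟨-4, wL2, 5, 2, 0, 0, 2, [-1], [1, 1, 1], []⟩,
   ⟨-1, wL2, 3, 0, 0, 0, 3, [-1], [0, -1], [1, 1, 1, 1]⟩,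
   ⟨-4, wR2, 1, 2, 0, 0, 2, [1], [0, 1], [0, 1, 1]⟩]

set_option maxRecDepth 100000 in
theorem cT4b1 : chk3 tT4b1 1 [1] [1] [1] = true := by decide +kernel

/-- Common factor: 64 Q^1 D^5 P^1 M^0. -/
def tT4c1 : List Term :=
  [⟨64, wOne, 0, 5, 1, 0, 0, [1], [], []⟩,
   ⟨64, wBe, 1, 4, 2, 0, 0, [], [1], []⟩,
   ⟨64, wGa, 1, 3, 3, 0, 0, [], [], [1]⟩,
   ⟨-4, wL2, 3, 2, 0, 0, 2, [-1], [1, 1, 1], []⟩,
   ⟨-1, wL2, 5, 0, 0, 0, 3, [-1], [0, -1], [1, 1, 1, 1]⟩,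
   ⟨-4, wR2, 1, 2, 0, 0, 2, [1], [0, 1], [0, 1, 1]⟩]

set_option maxRecDepth 100000 in
theorem cT4c1 : chk3 tT4c1 1 [1] [1] [1] = true := by decide +kernel

/-- Common factor: 64 Q^1 D^5 P^1 M^0. -/
def tT5v13 : List Term :=
  [⟨64, wAp, 0, 5, 1, 0, 0, [1], [], []⟩,
   ⟨16, wBp, 1, 4, 2, 0, 0, [], [1], []⟩,
   ⟨-1, wAp, 2, 0, 0, 0, 3, [1, -1], [0, 1, 0, 1], []⟩,
   ⟨-1, wBp, 1, 1, 1, 0, 2, [2], [0, 1, -1], []⟩]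

set_option maxRecDepth 100000 in
theorem cT5v13 : chk2 tT5v13 1 [1] [1] = true := by decide +kernel

/-- Common factor: 256 Q^1 D^7 P^1 M^0. -/
def tT5v1 : List Term :=
  [⟨256, wOne, 0, 7, 1, 0, 0, [1], [], []⟩,
   ⟨256, wBe, 1, 6, 2, 0, 0, [], [1], []⟩,
   ⟨256, wGa, 1, 5, 3, 0, 0, [], [], [1]⟩,
   ⟨-1, wAp, 2, 0, 0, 0, 4, [1, -1], [0, 1, 0, 1], [0, 1, 1, 1, 1]⟩,
   ⟨-1, wBp, 1, 1, 1, 0, 3, [2], [0, 1, -1], [0, 1, 0, -1]⟩,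
   ⟨-4, wGp, 3, 3, 1, 0, 2, [], [1, 1], [-1, 0, -1]⟩]

set_option maxRecDepth 100000 in
theorem cT5v1 : chk3 tT5v1 1 [1] [1] [1] = true := by decide +kernel

end Pool.Agent.Helper8.S4
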