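/-
Positive braids on four strands: the list of inequalities holds on the whole ray (helper8).
-/
import Pool.Agent.Helper8.S4.Def
import Pool.Agent.Helper8.S4.Cert

namespace Pool.Agent.Helper8.S4

open Complex

/-- The weights. -/
noncomputable def wt (Q : ℝ) : Wt :=
  ⟨ev wOne Q, ev wBe Q, ev wGa Q, ev wAp Q, ev wBp Q, ev wGp Q, ev wLam Q, ev wR1 Q, ev wL2 Q,
    ev wR2 Q⟩

lemma pos01 (p : List ℤ) (h : posOn p 1 0 [1] = true) {Q : ℝ} (h0 : 0 < Q) (h1 : Q < 1) :
    0 < ev p Q :=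
  posOn_ev p 1 (by norm_num) [1] 0 h Q (by simpa using h0) (by simpa using h1)

theorem wt_pos {Q : ℝ} (h0 : 0 < Q) (h1 : Q < 1) : (wt Q).Pos where
  one := pos01 _ (by decide +kernel) h0 h1
  be := pos01 _ (by decide +kernel) h0 h1
  ga := pos01 _ (by decide +kernel) h0 h1
  ap := pos01 _ (by decide +kernel) h0 h1
  bp := pos01 _ (by decide +kernel) h0 h1
  gp := pos01 _ (by decide +kernel) h0 h1
  lam := pos01 _ (by decide +kernel) h0 h1
  R1 := pos01 _ (by decide +kernel) h0 h1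
  l2 := pos01 _ (by decide +kernel) h0 h1
  R2 := pos01 _ (by decide +kernel) h0 h1

/-- Data of a point of the ray. -/
structure RD (Q t : ℝ) (q : ℂ) : Prop where
  h0 : 0 < Q
  h1 : Q < 1
  ht : t ^ 2 = 3
  hq : (ev pK Q : ℂ) * q = cev qh Q t
  hD : 0 < ev pD Q
  hP : 0 < ev pP Q
  hM : 0 < ev pM Q
  hK : ev pK Q = 2 * ev pD Q
  hE1 : normSq (1 + q) = ev pP Q / ev pD Q
  hE3 : normSq (1 + q + q ^ 2) = ev pM Q / ev pD Q ^ 2

lemma rd {Q t : ℝ} {q : ℂ} (h0 : 0 < Q) (h1 : Q < 1) (ht : t ^ 2 = 3)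
    (hq : q = (Q : ℂ) * ((-1 + 4 * Q - Q ^ 2) - (1 - Q ^ 2) * (t * I)) / (2 * (1 - Q + Q ^ 2))) :
    RD Q t q := by
  have hD := pos01 pD (by decide +kernel) h0 h1
  have hP := pos01 pP (by decide +kernel) h0 h1
  have hM := pos01 pM (by decide +kernel) h0 h1
  have hK : ev pK Q = 2 * ev pD Q := by rw [pK, ev_pscal]; norm_num
  have eD : ev pD Q = 1 - Q + Q ^ 2 := by simp only [pD, ev]; push_cast; ring
  have eP : ev pP Q = 1 - 2 * Q + 6 * Q ^ 2 - 2 * Q ^ 3 + Q ^ 4 := by
    simp only [pP, ev]; push_cast; ring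
  have eM : ev pM Q = (1 - Q ^ 2 + Q ^ 4) * (1 - Q + Q ^ 2) ^ 2
      + (1 + Q ^ 2) * (1 - Q + Q ^ 2) * (Q * (-1 + 4 * Q - Q ^ 2))
      + (Q * (-1 + 4 * Q - Q ^ 2)) ^ 2 := by
    simp only [pM, pD, ev_padd, ev_pmul, ev]; push_cast; ring
  have hDp : 0 < 1 - Q + Q ^ 2 := by rw [← eD]; exact hD
  have hre : q.re = Q * (-1 + 4 * Q - Q ^ 2) / (2 * (1 - Q + Q ^ 2)) := by
    have : q = (((Q * (-1 + 4 * Q - Q ^ 2) / (2 * (1 - Q + Q ^ 2)) : ℝ) : ℂ))
        + ((-(Q * (1 - Q ^ 2) * t) / (2 * (1 - Q + Q ^ 2)) : ℝ) : ℂ) * I := by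
      rw [hq]; push_cast; ring
    rw [this, Complex.add_re, Complex.re_ofReal_mul, Complex.ofReal_re, Complex.I_re]; ring
  have him : q.im = -(Q * (1 - Q ^ 2) * t) / (2 * (1 - Q + Q ^ 2)) := by
    have : q = (((Q * (-1 + 4 * Q - Q ^ 2) / (2 * (1 - Q + Q ^ 2)) : ℝ) : ℂ))
        + ((-(Q * (1 - Q ^ 2) * t) / (2 * (1 - Q + Q ^ 2)) : ℝ) : ℂ) * I := by
      rw [hq]; push_cast; ring
    rw [this, Complex.add_im, Complex.im_ofReal_mul, Complex.ofReal_im, Complex.I_im]; ring
  have him2 : q.im ^ 2 = 3 * (Q * (1 - Q ^ 2)) ^ 2 / (2 * (1 - Q + Q ^ 2)) ^ 2 := by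
    rw [him, div_pow, neg_sq, mul_pow _ t, ht]; ring
  refine ⟨h0, h1, ht, ?_, hD, hP, hM, hK, ?_, ?_⟩
  · rw [hK, eD]
    apply Complex.ext
    · rw [Complex.re_ofReal_mul, hre]
      simp only [cev, qh, ev_pmul, ev]; push_cast; field_simp; ring
    · rw [Complex.im_ofReal_mul, him]
      simp only [cev, qh, ev_pmul, ev]; push_cast; field_simp; ring
  · rw [eP, eD, Complex.normSq_apply]
    simp only [Complex.add_re, Complex.add_im, Complex.one_re, Complex.one_im]
    have : (1 + q.re) * (1 + q.re) + (0 + q.im) * (0 + q.im) = (1 + q.re) ^ 2 + q.im ^ 2 := by ring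
    rw [this, him2, hre]; field_simp; ring
  · rw [eM, eD, Complex.normSq_apply]
    simp only [Complex.add_re, Complex.add_im, Complex.one_re, Complex.one_im, pow_two,
      Complex.mul_re, Complex.mul_im]
    have : (1 + q.re + (q.re * q.re - q.im * q.im)) * (1 + q.re + (q.re * q.re - q.im * q.im))
        + (0 + q.im + (q.re * q.im + q.im * q.re)) * (0 + q.im + (q.re * q.im + q.im * q.re))
        = (1 + q.re + q.re ^ 2 - q.im ^ 2) ^ 2 + q.im ^ 2 * (1 + 2 * q.re) ^ 2 := by ring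
    rw [this, him2, hre]; field_simp; ring

theorem lT1 {Q t : ℝ} {q : ℂ} (r : RD Q t q) :
    ∀ h Y : ℂ, (wt Q).one * Q / normSq (1 + q) * normSq ((1 + q + q ^ 2) * h - q * Y)
    + (wt Q).be * normSq (h + Y) ≤ (wt Q).R1 * normSq h + (wt Q).lam * normSq Y := by
  intro h Y
  obtain ⟨h0, h1, ht, hq, hD, hP, hM, hK, hE1, hE3⟩ := r
  have hc := cT1
  simp only [chk2, Bool.and_eq_true] at hc
  obtain ⟨hok, p1, p2⟩ := hc
  have q1 := posOn_ev _ _ (by norm_num) _ _ p1 Q (by simpa using h0) (by norm_num; exact h1)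
  have q2 := posOn_ev _ _ (by norm_num) _ _ p2 Q (by simpa using h0) (by norm_num; exact h1)
  have H := vals_nonneg2 tT1 hok Q t ht q hq h Y q1 q2
  simp only [vals, tT1, List.map_cons, List.map_nil, List.sum_cons, List.sum_nil, Term.val] at H
  rw [show evc [1] q * h + evc ([] : List ℤ) q * Y + evc ([] : List ℤ) q * 0 = h from by
    simp only [evc]; push_cast; ring] at H
  rw [show evc ([] : List ℤ) q * h + evc [1] q * Y + evc ([] : List ℤ) q * 0 = Y from by
    simp only [evc]; push_cast; ring] at H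
  rw [show evc [1, 1, 1] q * h + evc [0, -1] q * Y + evc ([] : List ℤ) q * 0 = (1 + q + q ^ 2) * h - q * Y from by
    simp only [evc]; push_cast; ring] at H
  rw [show evc [1] q * h + evc [1] q * Y + evc ([] : List ℤ) q * 0 = h + Y from by
    simp only [evc]; push_cast; ring] at H
  rw [hE1]
  simp only [wt]
  rw [hK] at H
  generalize normSq (h) = z1 at H ⊢
  generalize normSq (Y) = z2 at H ⊢
  generalize normSq ((1 + q + q ^ 2) * h - q * Y) = z3 at H ⊢
  generalize normSq (h + Y) = z4 at H ⊢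
  generalize ev wBe Q = ywBe at H ⊢
  generalize ev wLam Q = ywLam at H ⊢
  generalize ev wOne Q = ywOne at H ⊢
  generalize ev wR1 Q = ywR1 at H ⊢
  generalize ev pD Q = D at *
  generalize ev pP Q = P at *
  generalize ev pM Q = M at *
  have hG : 0 < ((16 * Q ^ 0 * D ^ 3 * P ^ 1 * M ^ 0) : ℝ) := by positivity
  refine le_of_mul_le_mul_left ?_ hG
  refine le_of_sub_nonneg (le_of_le_of_eq H ?_)
  push_cast
  field_simp
  ring

theorem lT2v1 {Q t : ℝ} {q : ℂ} (r : RD Q t q) :
    ∀ x u : ℂ, (wt Q).lam * Q ^ 4 / normSq (1 + q) * normSq (-x + (1 + q + q ^ 2) * u)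
    + (wt Q).R1 / normSq (1 + q) * normSq (x + q * u) ≤ F3 q Q (wt Q) x u 0 := by
  intro x u
  obtain ⟨h0, h1, ht, hq, hD, hP, hM, hK, hE1, hE3⟩ := r
  have hc := cT2v1
  simp only [chk2, Bool.and_eq_true] at hc
  obtain ⟨hok, p1, p2⟩ := hc
  have q1 := posOn_ev _ _ (by norm_num) _ _ p1 Q (by simpa using h0) (by norm_num; exact h1)
  have q2 := posOn_ev _ _ (by norm_num) _ _ p2 Q (by simpa using h0) (by norm_num; exact h1)
  have H := vals_nonneg2 tT2v1 hok Q t ht q hq x u q1 q2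
  simp only [vals, tT2v1, List.map_cons, List.map_nil, List.sum_cons, List.sum_nil, Term.val] at H
  rw [show evc [1] q * x + evc ([] : List ℤ) q * u + evc ([] : List ℤ) q * 0 = x from by
    simp only [evc]; push_cast; ring] at H
  rw [show evc ([] : List ℤ) q * x + evc [1] q * u + evc ([] : List ℤ) q * 0 = u from by
    simp only [evc]; push_cast; ring] at H
  rw [show evc [-1] q * x + evc [1, 1, 1] q * u + evc ([] : List ℤ) q * 0 = -x + (1 + q + q ^ 2) * u from by
    simp only [evc]; push_cast; ring] at H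
  rw [show evc [1] q * x + evc [0, 1] q * u + evc ([] : List ℤ) q * 0 = x + q * u from by
    simp only [evc]; push_cast; ring] at H
  simp only [F3, Complex.normSq_zero, mul_zero, add_zero]
  rw [hE1]
  simp only [wt]
  rw [hK] at H
  generalize normSq (x) = z1 at H ⊢
  generalize normSq (u) = z2 at H ⊢
  generalize normSq (-x + (1 + q + q ^ 2) * u) = z3 at H ⊢
  generalize normSq (x + q * u) = z4 at H ⊢
  generalize ev wBe Q = ywBe at H ⊢
  generalize ev wLam Q = ywLam at H ⊢
  generalize ev wOne Q = ywOne at H ⊢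
  generalize ev wR1 Q = ywR1 at H ⊢
  generalize ev pD Q = D at *
  generalize ev pP Q = P at *
  generalize ev pM Q = M at *
  have hG : 0 < ((16 * Q ^ 1 * D ^ 3 * P ^ 1 * M ^ 0) : ℝ) := by positivity
  refine le_of_mul_le_mul_left ?_ hG
  refine le_of_sub_nonneg (le_of_le_of_eq H ?_)
  push_cast
  field_simp
  ring

theorem lT2v3 {Q t : ℝ} {q : ℂ} (r : RD Q t q) :
    ∀ x u a : ℂ,
    (wt Q).lam * Q ^ 4 / normSq (1 + q) * normSq (-x - q * u + (1 + q) * (1 + q ^ 2) * a)
    + (wt Q).R1 / (normSq (1 + q) * normSq (1 + q + q ^ 2))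
      * normSq ((1 + q + q ^ 2) * x - q ^ 2 * u + q * (1 + q) * (1 + q ^ 2) * a)
    + (wt Q).ga * normSq (1 + q) ^ 2 / normSq (1 + q + q ^ 2) * normSq ((1 + q) * u + q * a)
    ≤ F3 q Q (wt Q) x u a := by
  intro x u a
  obtain ⟨h0, h1, ht, hq, hD, hP, hM, hK, hE1, hE3⟩ := r
  have hc := cT2v3
  simp only [chk3, Bool.and_eq_true] at hc
  obtain ⟨hok, ⟨p1, p2⟩, p3⟩ := hc
  have q1 := posOn_ev _ _ (by norm_num) _ _ p1 Q (by simpa using h0) (by norm_num; exact h1)
  have q2 := posOn_ev _ _ (by norm_num) _ _ p2 Q (by simpa using h0) (by norm_num; exact h1)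
  have q3 := posOn_ev _ _ (by norm_num) _ _ p3 Q (by simpa using h0) (by norm_num; exact h1)
  have H := vals_nonneg3 tT2v3 hok Q t ht q hq x u a q1 q2 q3.le
  simp only [vals, tT2v3, List.map_cons, List.map_nil, List.sum_cons, List.sum_nil, Term.val] at H
  rw [show evc [1] q * x + evc ([] : List ℤ) q * u + evc ([] : List ℤ) q * a = x from by
    simp only [evc]; push_cast; ring] at H
  rw [show evc ([] : List ℤ) q * x + evc [1] q * u + evc ([] : List ℤ) q * a = u from by
    simp only [evc]; push_cast; ring] at H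
  rw [show evc ([] : List ℤ) q * x + evc ([] : List ℤ) q * u + evc [1] q * a = a from by
    simp only [evc]; push_cast; ring] at H
  rw [show evc [-1] q * x + evc [0, -1] q * u + evc [1, 1, 1, 1] q * a = -x - q * u + (1 + q) * (1 + q ^ 2) * a from by
    simp only [evc]; push_cast; ring] at H
  rw [show evc [1, 1, 1] q * x + evc [0, 0, -1] q * u + evc [0, 1, 1, 1, 1] q * a = (1 + q + q ^ 2) * x - q ^ 2 * u + q * (1 + q) * (1 + q ^ 2) * a from by
    simp only [evc]; push_cast; ring] at H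
  rw [show evc ([] : List ℤ) q * x + evc [1, 1] q * u + evc [0, 1] q * a = (1 + q) * u + q * a from by
    simp only [evc]; push_cast; ring] at H
  simp only [F3]
  rw [hE1, hE3]
  simp only [wt]
  rw [hK] at H
  generalize normSq (x) = z1 at H ⊢
  generalize normSq (u) = z2 at H ⊢
  generalize normSq (a) = z3 at H ⊢
  generalize normSq (-x - q * u + (1 + q) * (1 + q ^ 2) * a) = z4 at H ⊢
  generalize normSq ((1 + q + q ^ 2) * x - q ^ 2 * u + q * (1 + q) * (1 + q ^ 2) * a) = z5 at H ⊢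
  generalize normSq ((1 + q) * u + q * a) = z6 at H ⊢
  generalize ev wBe Q = ywBe at H ⊢
  generalize ev wGa Q = ywGa at H ⊢
  generalize ev wLam Q = ywLam at H ⊢
  generalize ev wOne Q = ywOne at H ⊢
  generalize ev wR1 Q = ywR1 at H ⊢
  generalize ev pD Q = D at *
  generalize ev pP Q = P at *
  generalize ev pM Q = M at *
  have hG : 0 < ((256 * Q ^ 1 * D ^ 5 * P ^ 1 * M ^ 1) : ℝ) := by positivity
  refine le_of_mul_le_mul_left ?_ hG
  refine le_of_sub_nonneg (le_of_le_of_eq H ?_)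
  push_cast
  field_simp
  ring

theorem lT2v13 {Q t : ℝ} {q : ℂ} (r : RD Q t q) :
    ∀ x a b : ℂ,
    (wt Q).lam * Q ^ 4 / normSq (1 + q) * normSq (-x + (1 + q + q ^ 2) * a - q * b)
    + (wt Q).R1 / (normSq (1 + q) * normSq (1 + q + q ^ 2))
      * normSq ((1 + q + q ^ 2) * x + q * (1 + q + q ^ 2) * a - q ^ 2 * b)
    + (wt Q).ga * normSq (1 + q) ^ 3 / normSq (1 + q + q ^ 2) * normSq b
    ≤ F13 q Q (wt Q) x a b := by
  intro x a b
  obtain ⟨h0, h1, ht, hq, hD, hP, hM, hK, hE1, hE3⟩ := r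
  have hc := cT2v13
  simp only [chk3, Bool.and_eq_true] at hc
  obtain ⟨hok, ⟨p1, p2⟩, p3⟩ := hc
  have q1 := posOn_ev _ _ (by norm_num) _ _ p1 Q (by simpa using h0) (by norm_num; exact h1)
  have q2 := posOn_ev _ _ (by norm_num) _ _ p2 Q (by simpa using h0) (by norm_num; exact h1)
  have q3 := posOn_ev _ _ (by norm_num) _ _ p3 Q (by simpa using h0) (by norm_num; exact h1)
  have H := vals_nonneg3 tT2v13 hok Q t ht q hq x a b q1 q2 q3.le
  simp only [vals, tT2v13, List.map_cons, List.map_nil, List.sum_cons, List.sum_nil, Term.val] at H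
  rw [show evc [1] q * x + evc ([] : List ℤ) q * a + evc ([] : List ℤ) q * b = x from by
    simp only [evc]; push_cast; ring] at H
  rw [show evc ([] : List ℤ) q * x + evc [1] q * a + evc [1] q * b = a + b from by
    simp only [evc]; push_cast; ring] at H
  rw [show evc ([] : List ℤ) q * x + evc [1] q * a + evc [-1] q * b = a - b from by
    simp only [evc]; push_cast; ring] at H
  rw [show evc [-1] q * x + evc [1, 1, 1] q * a + evc [0, -1] q * b = -x + (1 + q + q ^ 2) * a - q * b from by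
    simp only [evc]; push_cast; ring] at H
  rw [show evc [1, 1, 1] q * x + evc [0, 1, 1, 1] q * a + evc [0, 0, -1] q * b = (1 + q + q ^ 2) * x + q * (1 + q + q ^ 2) * a - q ^ 2 * b from by
    simp only [evc]; push_cast; ring] at H
  rw [show evc ([] : List ℤ) q * x + evc ([] : List ℤ) q * a + evc [1] q * b = b from by
    simp only [evc]; push_cast; ring] at H
  simp only [F13]
  rw [hE1, hE3]
  simp only [wt]
  rw [hK] at H
  generalize normSq (x) = z1 at H ⊢
  generalize normSq (a + b) = z2 at H ⊢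
  generalize normSq (a - b) = z3 at H ⊢
  generalize normSq (-x + (1 + q + q ^ 2) * a - q * b) = z4 at H ⊢
  generalize normSq ((1 + q + q ^ 2) * x + q * (1 + q + q ^ 2) * a - q ^ 2 * b) = z5 at H ⊢
  generalize normSq (b) = z6 at H ⊢
  generalize ev wAp Q = ywAp at H ⊢
  generalize ev wBp Q = ywBp at H ⊢
  generalize ev wGa Q = ywGa at H ⊢
  generalize ev wGp Q = ywGp at H ⊢
  generalize ev wLam Q = ywLam at H ⊢
  generalize ev wR1 Q = ywR1 at H ⊢
  generalize ev pD Q = D at *
  generalize ev pP Q = P at *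
  generalize ev pM Q = M at *
  have hG : 0 < ((64 * Q ^ 1 * D ^ 3 * P ^ 1 * M ^ 1) : ℝ) := by positivity
  refine le_of_mul_le_mul_left ?_ hG
  refine le_of_sub_nonneg (le_of_le_of_eq H ?_)
  push_cast
  field_simp
  ring

theorem lT3v1 {Q t : ℝ} {q : ℂ} (r : RD Q t q) :
    ∀ x u : ℂ, (wt Q).one * Q / normSq (1 + q) * normSq (x + q * (1 + q + q ^ 2) * u)
    + (wt Q).be * normSq (x - q ^ 2 * u) ≤ F3 q Q (wt Q) x u 0 := by
  intro x u
  obtain ⟨h0, h1, ht, hq, hD, hP, hM, hK, hE1, hE3⟩ := r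
  have hc := cT3v1
  simp only [chk2, Bool.and_eq_true] at hc
  obtain ⟨hok, p1, p2⟩ := hc
  have q1 := posOn_ev _ _ (by norm_num) _ _ p1 Q (by simpa using h0) (by norm_num; exact h1)
  have q2 := posOn_ev _ _ (by norm_num) _ _ p2 Q (by simpa using h0) (by norm_num; exact h1)
  have H := vals_nonneg2 tT3v1 hok Q t ht q hq x u q1 q2
  simp only [vals, tT3v1, List.map_cons, List.map_nil, List.sum_cons, List.sum_nil, Term.val] at H
  rw [show evc [1] q * x + evc ([] : List ℤ) q * u + evc ([] : List ℤ) q * 0 = x from by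
    simp only [evc]; push_cast; ring] at H
  rw [show evc ([] : List ℤ) q * x + evc [1] q * u + evc ([] : List ℤ) q * 0 = u from by
    simp only [evc]; push_cast; ring] at H
  rw [show evc [1] q * x + evc [0, 1, 1, 1] q * u + evc ([] : List ℤ) q * 0 = x + q * (1 + q + q ^ 2) * u from by
    simp only [evc]; push_cast; ring] at H
  rw [show evc [1] q * x + evc [0, 0, -1] q * u + evc ([] : List ℤ) q * 0 = x - q ^ 2 * u from by
    simp only [evc]; push_cast; ring] at H
  simp only [F3, Complex.normSq_zero, mul_zero, add_zero]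
  rw [hE1]
  simp only [wt]
  rw [hK] at H
  generalize normSq (x) = z1 at H ⊢
  generalize normSq (u) = z2 at H ⊢
  generalize normSq (x + q * (1 + q + q ^ 2) * u) = z3 at H ⊢
  generalize normSq (x - q ^ 2 * u) = z4 at H ⊢
  generalize ev wBe Q = ywBe at H ⊢
  generalize ev wOne Q = ywOne at H ⊢
  generalize ev pD Q = D at *
  generalize ev pP Q = P at *
  generalize ev pM Q = M at *
  have hG : 0 < ((64 * Q ^ 1 * D ^ 5 * P ^ 1 * M ^ 0) : ℝ) := by positivity
  refine le_of_mul_le_mul_left ?_ hG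
  refine le_of_sub_nonneg (le_of_le_of_eq H ?_)
  push_cast
  field_simp
  ring

theorem lT3v3 {Q t : ℝ} {q : ℂ} (r : RD Q t q) :
    ∀ x u a : ℂ,
    (wt Q).one * Q / normSq (1 + q) * normSq (x - q ^ 2 * u + q * (1 + q) * (1 + q ^ 2) * a)
    + (wt Q).be / normSq (1 + q + q ^ 2)
      * normSq ((1 + q + q ^ 2) * x + q ^ 3 * u - q ^ 2 * (q * (1 + q + q ^ 2) + 1) * a)
    + (wt Q).ga * normSq (1 + q) ^ 2 / normSq (1 + q + q ^ 2) * normSq ((1 + q) * u + q * a)
    ≤ F3 q Q (wt Q) x u a := by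
  intro x u a
  obtain ⟨h0, h1, ht, hq, hD, hP, hM, hK, hE1, hE3⟩ := r
  have hc := cT3v3
  simp only [chk3, Bool.and_eq_true] at hc
  obtain ⟨hok, ⟨p1, p2⟩, p3⟩ := hc
  have q1 := posOn_ev _ _ (by norm_num) _ _ p1 Q (by simpa using h0) (by norm_num; exact h1)
  have q2 := posOn_ev _ _ (by norm_num) _ _ p2 Q (by simpa using h0) (by norm_num; exact h1)
  have q3 := posOn_ev _ _ (by norm_num) _ _ p3 Q (by simpa using h0) (by norm_num; exact h1)
  have H := vals_nonneg3 tT3v3 hok Q t ht q hq x u a q1 q2 q3.le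
  simp only [vals, tT3v3, List.map_cons, List.map_nil, List.sum_cons, List.sum_nil, Term.val] at H
  rw [show evc [1] q * x + evc ([] : List ℤ) q * u + evc ([] : List ℤ) q * a = x from by
    simp only [evc]; push_cast; ring] at H
  rw [show evc ([] : List ℤ) q * x + evc [1] q * u + evc ([] : List ℤ) q * a = u from by
    simp only [evc]; push_cast; ring] at H
  rw [show evc ([] : List ℤ) q * x + evc ([] : List ℤ) q * u + evc [1] q * a = a from by
    simp only [evc]; push_cast; ring] at H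
  rw [show evc [1] q * x + evc [0, 0, -1] q * u + evc [0, 1, 1, 1, 1] q * a = x - q ^ 2 * u + q * (1 + q) * (1 + q ^ 2) * a from by
    simp only [evc]; push_cast; ring] at H
  rw [show evc [1, 1, 1] q * x + evc [0, 0, 0, 1] q * u + evc [0, 0, -1, -1, -1, -1] q * a = (1 + q + q ^ 2) * x + q ^ 3 * u - q ^ 2 * (q * (1 + q + q ^ 2) + 1) * a from by
    simp only [evc]; push_cast; ring] at H
  rw [show evc ([] : List ℤ) q * x + evc [1, 1] q * u + evc [0, 1] q * a = (1 + q) * u + q * a from by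
    simp only [evc]; push_cast; ring] at H
  simp only [F3]
  rw [hE1, hE3]
  simp only [wt]
  rw [hK] at H
  generalize normSq (x) = z1 at H ⊢
  generalize normSq (u) = z2 at H ⊢
  generalize normSq (a) = z3 at H ⊢
  generalize normSq (x - q ^ 2 * u + q * (1 + q) * (1 + q ^ 2) * a) = z4 at H ⊢
  generalize normSq ((1 + q + q ^ 2) * x + q ^ 3 * u - q ^ 2 * (q * (1 + q + q ^ 2) + 1) * a) = z5 at H ⊢
  generalize normSq ((1 + q) * u + q * a) = z6 at H ⊢
  generalize ev wBe Q = ywBe at H ⊢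
  generalize ev wGa Q = ywGa at H ⊢
  generalize ev wOne Q = ywOne at H ⊢
  generalize ev pD Q = D at *
  generalize ev pP Q = P at *
  generalize ev pM Q = M at *
  have hG : 0 < ((1024 * Q ^ 1 * D ^ 8 * P ^ 1 * M ^ 1) : ℝ) := by positivity
  refine le_of_mul_le_mul_left ?_ hG
  refine le_of_sub_nonneg (le_of_le_of_eq H ?_)
  push_cast
  field_simp
  ring

theorem lT3v13 {Q t : ℝ} {q : ℂ} (r : RD Q t q) :
    ∀ x a b : ℂ,
    (wt Q).one * Q / normSq (1 + q) * normSq (x + q * (1 + q + q ^ 2) * a - q ^ 2 * b)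
    + (wt Q).be / normSq (1 + q + q ^ 2)
      * normSq ((1 + q + q ^ 2) * x - q ^ 2 * (1 + q + q ^ 2) * a + q ^ 3 * b)
    + (wt Q).ga * normSq (1 + q) ^ 3 / normSq (1 + q + q ^ 2) * normSq b
    ≤ F13 q Q (wt Q) x a b := by
  intro x a b
  obtain ⟨h0, h1, ht, hq, hD, hP, hM, hK, hE1, hE3⟩ := r
  have hc := cT3v13
  simp only [chk3, Bool.and_eq_true] at hc
  obtain ⟨hok, ⟨p1, p2⟩, p3⟩ := hc
  have q1 := posOn_ev _ _ (by norm_num) _ _ p1 Q (by simpa using h0) (by norm_num; exact h1)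
  have q2 := posOn_ev _ _ (by norm_num) _ _ p2 Q (by simpa using h0) (by norm_num; exact h1)
  have q3 := posOn_ev _ _ (by norm_num) _ _ p3 Q (by simpa using h0) (by norm_num; exact h1)
  have H := vals_nonneg3 tT3v13 hok Q t ht q hq x a b q1 q2 q3.le
  simp only [vals, tT3v13, List.map_cons, List.map_nil, List.sum_cons, List.sum_nil, Term.val] at H
  rw [show evc [1] q * x + evc ([] : List ℤ) q * a + evc ([] : List ℤ) q * b = x from by
    simp only [evc]; push_cast; ring] at H
  rw [show evc ([] : List ℤ) q * x + evc [1] q * a + evc [1] q * b = a + b from by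
    simp only [evc]; push_cast; ring] at H
  rw [show evc ([] : List ℤ) q * x + evc [1] q * a + evc [-1] q * b = a - b from by
    simp only [evc]; push_cast; ring] at H
  rw [show evc [1] q * x + evc [0, 1, 1, 1] q * a + evc [0, 0, -1] q * b = x + q * (1 + q + q ^ 2) * a - q ^ 2 * b from by
    simp only [evc]; push_cast; ring] at H
  rw [show evc [1, 1, 1] q * x + evc [0, 0, -1, -1, -1] q * a + evc [0, 0, 0, 1] q * b = (1 + q + q ^ 2) * x - q ^ 2 * (1 + q + q ^ 2) * a + q ^ 3 * b from by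
    simp only [evc]; push_cast; ring] at H
  rw [show evc ([] : List ℤ) q * x + evc ([] : List ℤ) q * a + evc [1] q * b = b from by
    simp only [evc]; push_cast; ring] at H
  simp only [F13]
  rw [hE1, hE3]
  simp only [wt]
  rw [hK] at H
  generalize normSq (x) = z1 at H ⊢
  generalize normSq (a + b) = z2 at H ⊢
  generalize normSq (a - b) = z3 at H ⊢
  generalize normSq (x + q * (1 + q + q ^ 2) * a - q ^ 2 * b) = z4 at H ⊢
  generalize normSq ((1 + q + q ^ 2) * x - q ^ 2 * (1 + q + q ^ 2) * a + q ^ 3 * b) = z5 at H ⊢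
  generalize normSq (b) = z6 at H ⊢
  generalize ev wAp Q = ywAp at H ⊢
  generalize ev wBe Q = ywBe at H ⊢
  generalize ev wBp Q = ywBp at H ⊢
  generalize ev wGa Q = ywGa at H ⊢
  generalize ev wGp Q = ywGp at H ⊢
  generalize ev wOne Q = ywOne at H ⊢
  generalize ev pD Q = D at *
  generalize ev pP Q = P at *
  generalize ev pM Q = M at *
  have hG : 0 < ((256 * Q ^ 1 * D ^ 6 * P ^ 1 * M ^ 1) : ℝ) := by positivity
  refine le_of_mul_le_mul_left ?_ hG
  refine le_of_sub_nonneg (le_of_le_of_eq H ?_)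
  push_cast
  field_simp
  ring

theorem lT4K {Q t : ℝ} {q : ℂ} (r : RD Q t q) :
    ∀ m y : ℂ, (wt Q).ap * Q / normSq (1 + q) * normSq ((1 + q ^ 2) * m - 2 * q * y)
    + (wt Q).bp * normSq (m + y) ≤ (wt Q).R2 * normSq m + 2 * (wt Q).l2 * normSq y := by
  intro m y
  obtain ⟨h0, h1, ht, hq, hD, hP, hM, hK, hE1, hE3⟩ := r
  have hc := cT4K
  simp only [chk2, Bool.and_eq_true] at hc
  obtain ⟨hok, p1, p2⟩ := hc
  have q1 := posOn_ev _ _ (by norm_num) _ _ p1 Q (by simpa using h0) (by norm_num; exact h1)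
  have q2 := posOn_ev _ _ (by norm_num) _ _ p2 Q (by simpa using h0) (by norm_num; exact h1)
  have H := vals_nonneg2 tT4K hok Q t ht q hq m y q1 q2
  simp only [vals, tT4K, List.map_cons, List.map_nil, List.sum_cons, List.sum_nil, Term.val] at H
  rw [show evc [1] q * m + evc ([] : List ℤ) q * y + evc ([] : List ℤ) q * 0 = m from by
    simp only [evc]; push_cast; ring] at H
  rw [show evc ([] : List ℤ) q * m + evc [1] q * y + evc ([] : List ℤ) q * 0 = y from by
    simp only [evc]; push_cast; ring] at H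
  rw [show evc [1, 0, 1] q * m + evc [0, -2] q * y + evc ([] : List ℤ) q * 0 = (1 + q ^ 2) * m - 2 * q * y from by
    simp only [evc]; push_cast; ring] at H
  rw [show evc [1] q * m + evc [1] q * y + evc ([] : List ℤ) q * 0 = m + y from by
    simp only [evc]; push_cast; ring] at H
  rw [hE1]
  simp only [wt]
  rw [hK] at H
  generalize normSq (m) = z1 at H ⊢
  generalize normSq (y) = z2 at H ⊢
  generalize normSq ((1 + q ^ 2) * m - 2 * q * y) = z3 at H ⊢
  generalize normSq (m + y) = z4 at H ⊢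
  generalize ev wAp Q = ywAp at H ⊢
  generalize ev wBp Q = ywBp at H ⊢
  generalize ev wL2 Q = ywL2 at H ⊢
  generalize ev wR2 Q = ywR2 at H ⊢
  generalize ev pD Q = D at *
  generalize ev pP Q = P at *
  generalize ev pM Q = M at *
  have hG : 0 < ((16 * Q ^ 0 * D ^ 3 * P ^ 1 * M ^ 0) : ℝ) := by positivity
  refine le_of_mul_le_mul_left ?_ hG
  refine le_of_sub_nonneg (le_of_le_of_eq H ?_)
  push_cast
  field_simp
  ring

theorem lT4b13 {Q t : ℝ} {q : ℂ} (r : RD Q t q) :
    ∀ x a b : ℂ,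
    (wt Q).l2 * Q ^ 4 / normSq (1 + q) * normSq (-x + (1 + q + q ^ 2) * a - q * b)
    + (wt Q).l2 * Q ^ 2 / normSq (1 + q) * normSq (-x - q * a + (1 + q + q ^ 2) * b)
    + (wt Q).R2 / normSq (1 + q) * normSq (x + q * a + q * b) ≤ F13 q Q (wt Q) x a b := by
  intro x a b
  obtain ⟨h0, h1, ht, hq, hD, hP, hM, hK, hE1, hE3⟩ := r
  have hc := cT4b13
  simp only [chk3, Bool.and_eq_true] at hc
  obtain ⟨hok, ⟨p1, p2⟩, p3⟩ := hc
  have q1 := posOn_ev _ _ (by norm_num) _ _ p1 Q (by simpa using h0) (by norm_num; exact h1)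
  have q2 := posOn_ev _ _ (by norm_num) _ _ p2 Q (by simpa using h0) (by norm_num; exact h1)
  have q3 := posOn_ev _ _ (by norm_num) _ _ p3 Q (by simpa using h0) (by norm_num; exact h1)
  have H := vals_nonneg3 tT4b13 hok Q t ht q hq x a b q1 q2 q3.le
  simp only [vals, tT4b13, List.map_cons, List.map_nil, List.sum_cons, List.sum_nil, Term.val] at H
  rw [show evc [1] q * x + evc ([] : List ℤ) q * a + evc ([] : List ℤ) q * b = x from by
    simp only [evc]; push_cast; ring] at H
  rw [show evc ([] : List ℤ) q * x + evc [1] q * a + evc [1] q * b = a + b from by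
    simp only [evc]; push_cast; ring] at H
  rw [show evc ([] : List ℤ) q * x + evc [1] q * a + evc [-1] q * b = a - b from by
    simp only [evc]; push_cast; ring] at H
  rw [show evc [-1] q * x + evc [1, 1, 1] q * a + evc [0, -1] q * b = -x + (1 + q + q ^ 2) * a - q * b from by
    simp only [evc]; push_cast; ring] at H
  rw [show evc [-1] q * x + evc [0, -1] q * a + evc [1, 1, 1] q * b = -x - q * a + (1 + q + q ^ 2) * b from by
    simp only [evc]; push_cast; ring] at H
  rw [show evc [1] q * x + evc [0, 1] q * a + evc [0, 1] q * b = x + q * a + q * b from by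
    simp only [evc]; push_cast; ring] at H
  simp only [F13]
  rw [hE1]
  simp only [wt]
  rw [hK] at H
  generalize normSq (x) = z1 at H ⊢
  generalize normSq (a + b) = z2 at H ⊢
  generalize normSq (a - b) = z3 at H ⊢
  generalize normSq (-x + (1 + q + q ^ 2) * a - q * b) = z4 at H ⊢
  generalize normSq (-x - q * a + (1 + q + q ^ 2) * b) = z5 at H ⊢
  generalize normSq (x + q * a + q * b) = z6 at H ⊢
  generalize ev wAp Q = ywAp at H ⊢
  generalize ev wBp Q = ywBp at H ⊢
  generalize ev wGp Q = ywGp at H ⊢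
  generalize ev wL2 Q = ywL2 at H ⊢
  generalize ev wR2 Q = ywR2 at H ⊢
  generalize ev pD Q = D at *
  generalize ev pP Q = P at *
  generalize ev pM Q = M at *
  have hG : 0 < ((16 * Q ^ 1 * D ^ 3 * P ^ 1 * M ^ 0) : ℝ) := by positivity
  refine le_of_mul_le_mul_left ?_ hG
  refine le_of_sub_nonneg (le_of_le_of_eq H ?_)
  push_cast
  field_simp
  ring

theorem lT4b1 {Q t : ℝ} {q : ℂ} (r : RD Q t q) :
    ∀ x u a : ℂ,
    (wt Q).l2 * Q ^ 4 / normSq (1 + q) * normSq (-x + (1 + q + q ^ 2) * u)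
    + (wt Q).l2 * Q ^ 2 / normSq (1 + q) * normSq (-x - q * u + (1 + q) * (1 + q ^ 2) * a)
    + (wt Q).R2 / normSq (1 + q) * normSq (x + q * u + q * (1 + q) * a) ≤ F3 q Q (wt Q) x u a := by
  intro x u a
  obtain ⟨h0, h1, ht, hq, hD, hP, hM, hK, hE1, hE3⟩ := r
  have hc := cT4b1
  simp only [chk3, Bool.and_eq_true] at hc
  obtain ⟨hok, ⟨p1, p2⟩, p3⟩ := hc
  have q1 := posOn_ev _ _ (by norm_num) _ _ p1 Q (by simpa using h0) (by norm_num; exact h1)
  have q2 := posOn_ev _ _ (by norm_num) _ _ p2 Q (by simpa using h0) (by norm_num; exact h1)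
  have q3 := posOn_ev _ _ (by norm_num) _ _ p3 Q (by simpa using h0) (by norm_num; exact h1)
  have H := vals_nonneg3 tT4b1 hok Q t ht q hq x u a q1 q2 q3.le
  simp only [vals, tT4b1, List.map_cons, List.map_nil, List.sum_cons, List.sum_nil, Term.val] at H
  rw [show evc [1] q * x + evc ([] : List ℤ) q * u + evc ([] : List ℤ) q * a = x from by
    simp only [evc]; push_cast; ring] at H
  rw [show evc ([] : List ℤ) q * x + evc [1] q * u + evc ([] : List ℤ) q * a = u from by
    simp only [evc]; push_cast; ring] at H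
  rw [show evc ([] : List ℤ) q * x + evc ([] : List ℤ) q * u + evc [1] q * a = a from by
    simp only [evc]; push_cast; ring] at H
  rw [show evc [-1] q * x + evc [1, 1, 1] q * u + evc ([] : List ℤ) q * a = -x + (1 + q + q ^ 2) * u from by
    simp only [evc]; push_cast; ring] at H
  rw [show evc [-1] q * x + evc [0, -1] q * u + evc [1, 1, 1, 1] q * a = -x - q * u + (1 + q) * (1 + q ^ 2) * a from by
    simp only [evc]; push_cast; ring] at H
  rw [show evc [1] q * x + evc [0, 1] q * u + evc [0, 1, 1] q * a = x + q * u + q * (1 + q) * a from by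
    simp only [evc]; push_cast; ring] at H
  simp only [F3]
  rw [hE1]
  simp only [wt]
  rw [hK] at H
  generalize normSq (x) = z1 at H ⊢
  generalize normSq (u) = z2 at H ⊢
  generalize normSq (a) = z3 at H ⊢
  generalize normSq (-x + (1 + q + q ^ 2) * u) = z4 at H ⊢
  generalize normSq (-x - q * u + (1 + q) * (1 + q ^ 2) * a) = z5 at H ⊢
  generalize normSq (x + q * u + q * (1 + q) * a) = z6 at H ⊢
  generalize ev wBe Q = ywBe at H ⊢
  generalize ev wGa Q = ywGa at H ⊢
  generalize ev wL2 Q = ywL2 at H ⊢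
  generalize ev wOne Q = ywOne at H ⊢
  generalize ev wR2 Q = ywR2 at H ⊢
  generalize ev pD Q = D at *
  generalize ev pP Q = P at *
  generalize ev pM Q = M at *
  have hG : 0 < ((64 * Q ^ 1 * D ^ 5 * P ^ 1 * M ^ 0) : ℝ) := by positivity
  refine le_of_mul_le_mul_left ?_ hG
  refine le_of_sub_nonneg (le_of_le_of_eq H ?_)
  push_cast
  field_simp
  ring

theorem lT4c1 {Q t : ℝ} {q : ℂ} (r : RD Q t q) :
    ∀ x u a : ℂ,
    (wt Q).l2 * Q ^ 2 / normSq (1 + q) * normSq (-x + (1 + q + q ^ 2) * u)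
    + (wt Q).l2 * Q ^ 4 / normSq (1 + q) * normSq (-x - q * u + (1 + q) * (1 + q ^ 2) * a)
    + (wt Q).R2 / normSq (1 + q) * normSq (x + q * u + q * (1 + q) * a) ≤ F3 q Q (wt Q) x u a := by
  intro x u a
  obtain ⟨h0, h1, ht, hq, hD, hP, hM, hK, hE1, hE3⟩ := r
  have hc := cT4c1
  simp only [chk3, Bool.and_eq_true] at hc
  obtain ⟨hok, ⟨p1, p2⟩, p3⟩ := hc
  have q1 := posOn_ev _ _ (by norm_num) _ _ p1 Q (by simpa using h0) (by norm_num; exact h1)
  have q2 := posOn_ev _ _ (by norm_num) _ _ p2 Q (by simpa using h0) (by norm_num; exact h1)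
  have q3 := posOn_ev _ _ (by norm_num) _ _ p3 Q (by simpa using h0) (by norm_num; exact h1)
  have H := vals_nonneg3 tT4c1 hok Q t ht q hq x u a q1 q2 q3.le
  simp only [vals, tT4c1, List.map_cons, List.map_nil, List.sum_cons, List.sum_nil, Term.val] at H
  rw [show evc [1] q * x + evc ([] : List ℤ) q * u + evc ([] : List ℤ) q * a = x from by
    simp only [evc]; push_cast; ring] at H
  rw [show evc ([] : List ℤ) q * x + evc [1] q * u + evc ([] : List ℤ) q * a = u from by
    simp only [evc]; push_cast; ring] at H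
  rw [show evc ([] : List ℤ) q * x + evc ([] : List ℤ) q * u + evc [1] q * a = a from by
    simp only [evc]; push_cast; ring] at H
  rw [show evc [-1] q * x + evc [1, 1, 1] q * u + evc ([] : List ℤ) q * a = -x + (1 + q + q ^ 2) * u from by
    simp only [evc]; push_cast; ring] at H
  rw [show evc [-1] q * x + evc [0, -1] q * u + evc [1, 1, 1, 1] q * a = -x - q * u + (1 + q) * (1 + q ^ 2) * a from by
    simp only [evc]; push_cast; ring] at H
  rw [show evc [1] q * x + evc [0, 1] q * u + evc [0, 1, 1] q * a = x + q * u + q * (1 + q) * a from by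
    simp only [evc]; push_cast; ring] at H
  simp only [F3]
  rw [hE1]
  simp only [wt]
  rw [hK] at H
  generalize normSq (x) = z1 at H ⊢
  generalize normSq (u) = z2 at H ⊢
  generalize normSq (a) = z3 at H ⊢
  generalize normSq (-x + (1 + q + q ^ 2) * u) = z4 at H ⊢
  generalize normSq (-x - q * u + (1 + q) * (1 + q ^ 2) * a) = z5 at H ⊢
  generalize normSq (x + q * u + q * (1 + q) * a) = z6 at H ⊢
  generalize ev wBe Q = ywBe at H ⊢
  generalize ev wGa Q = ywGa at H ⊢
  generalize ev wL2 Q = ywL2 at H ⊢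
  generalize ev wOne Q = ywOne at H ⊢
  generalize ev wR2 Q = ywR2 at H ⊢
  generalize ev pD Q = D at *
  generalize ev pP Q = P at *
  generalize ev pM Q = M at *
  have hG : 0 < ((64 * Q ^ 1 * D ^ 5 * P ^ 1 * M ^ 0) : ℝ) := by positivity
  refine le_of_mul_le_mul_left ?_ hG
  refine le_of_sub_nonneg (le_of_le_of_eq H ?_)
  push_cast
  field_simp
  ring

theorem lT5v13 {Q t : ℝ} {q : ℂ} (r : RD Q t q) :
    ∀ x s : ℂ,
    (wt Q).ap * Q / normSq (1 + q) * normSq ((1 - q) * x + q * (1 + q ^ 2) * s)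
    + (wt Q).bp / 4 * normSq (2 * x + q * (1 - q) * s)
    ≤ (wt Q).ap * normSq x / Q + (wt Q).bp / 4 * normSq (1 + q) * normSq s := by
  intro x s
  obtain ⟨h0, h1, ht, hq, hD, hP, hM, hK, hE1, hE3⟩ := r
  have hc := cT5v13
  simp only [chk2, Bool.and_eq_true] at hc
  obtain ⟨hok, p1, p2⟩ := hc
  have q1 := posOn_ev _ _ (by norm_num) _ _ p1 Q (by simpa using h0) (by norm_num; exact h1)
  have q2 := posOn_ev _ _ (by norm_num) _ _ p2 Q (by simpa using h0) (by norm_num; exact h1)
  have H := vals_nonneg2 tT5v13 hok Q t ht q hq x s q1 q2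
  simp only [vals, tT5v13, List.map_cons, List.map_nil, List.sum_cons, List.sum_nil, Term.val] at H
  rw [show evc [1] q * x + evc ([] : List ℤ) q * s + evc ([] : List ℤ) q * 0 = x from by
    simp only [evc]; push_cast; ring] at H
  rw [show evc ([] : List ℤ) q * x + evc [1] q * s + evc ([] : List ℤ) q * 0 = s from by
    simp only [evc]; push_cast; ring] at H
  rw [show evc [1, -1] q * x + evc [0, 1, 0, 1] q * s + evc ([] : List ℤ) q * 0 = (1 - q) * x + q * (1 + q ^ 2) * s from by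
    simp only [evc]; push_cast; ring] at H
  rw [show evc [2] q * x + evc [0, 1, -1] q * s + evc ([] : List ℤ) q * 0 = 2 * x + q * (1 - q) * s from by
    simp only [evc]; push_cast; ring] at H
  rw [hE1]
  simp only [wt]
  rw [hK] at H
  generalize normSq (x) = z1 at H ⊢
  generalize normSq (s) = z2 at H ⊢
  generalize normSq ((1 - q) * x + q * (1 + q ^ 2) * s) = z3 at H ⊢
  generalize normSq (2 * x + q * (1 - q) * s) = z4 at H ⊢
  generalize ev wAp Q = ywAp at H ⊢
  generalize ev wBp Q = ywBp at H ⊢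
  generalize ev pD Q = D at *
  generalize ev pP Q = P at *
  generalize ev pM Q = M at *
  have hG : 0 < ((64 * Q ^ 1 * D ^ 5 * P ^ 1 * M ^ 0) : ℝ) := by positivity
  refine le_of_mul_le_mul_left ?_ hG
  refine le_of_sub_nonneg (le_of_le_of_eq H ?_)
  push_cast
  field_simp
  ring

theorem lT5v1 {Q t : ℝ} {q : ℂ} (r : RD Q t q) :
    ∀ x u a : ℂ,
    (wt Q).ap * Q / normSq (1 + q)
      * normSq ((1 - q) * x + q * (1 + q ^ 2) * u + q * (1 + q) * (1 + q ^ 2) * a)
    + (wt Q).bp / 4 * normSq (2 * x + q * (1 - q) * u + q * (1 - q ^ 2) * a)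
    + (wt Q).gp / 4 * Q ^ 2 * normSq ((1 + q) * u - (1 + q ^ 2) * a) ≤ F3 q Q (wt Q) x u a := by
  intro x u a
  obtain ⟨h0, h1, ht, hq, hD, hP, hM, hK, hE1, hE3⟩ := r
  have hc := cT5v1
  simp only [chk3, Bool.and_eq_true] at hc
  obtain ⟨hok, ⟨p1, p2⟩, p3⟩ := hc
  have q1 := posOn_ev _ _ (by norm_num) _ _ p1 Q (by simpa using h0) (by norm_num; exact h1)
  have q2 := posOn_ev _ _ (by norm_num) _ _ p2 Q (by simpa using h0) (by norm_num; exact h1)
  have q3 := posOn_ev _ _ (by norm_num) _ _ p3 Q (by simpa using h0) (by norm_num; exact h1)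
  have H := vals_nonneg3 tT5v1 hok Q t ht q hq x u a q1 q2 q3.le
  simp only [vals, tT5v1, List.map_cons, List.map_nil, List.sum_cons, List.sum_nil, Term.val] at H
  rw [show evc [1] q * x + evc ([] : List ℤ) q * u + evc ([] : List ℤ) q * a = x from by
    simp only [evc]; push_cast; ring] at H
  rw [show evc ([] : List ℤ) q * x + evc [1] q * u + evc ([] : List ℤ) q * a = u from by
    simp only [evc]; push_cast; ring] at H
  rw [show evc ([] : List ℤ) q * x + evc ([] : List ℤ) q * u + evc [1] q * a = a from by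
    simp only [evc]; push_cast; ring] at H
  rw [show evc [1, -1] q * x + evc [0, 1, 0, 1] q * u + evc [0, 1, 1, 1, 1] q * a = (1 - q) * x + q * (1 + q ^ 2) * u + q * (1 + q) * (1 + q ^ 2) * a from by
    simp only [evc]; push_cast; ring] at H
  rw [show evc [2] q * x + evc [0, 1, -1] q * u + evc [0, 1, 0, -1] q * a = 2 * x + q * (1 - q) * u + q * (1 - q ^ 2) * a from by
    simp only [evc]; push_cast; ring] at H
  rw [show evc ([] : List ℤ) q * x + evc [1, 1] q * u + evc [-1, 0, -1] q * a = (1 + q) * u - (1 + q ^ 2) * a from by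
    simp only [evc]; push_cast; ring] at H
  simp only [F3]
  rw [hE1]
  simp only [wt]
  rw [hK] at H
  generalize normSq (x) = z1 at H ⊢
  generalize normSq (u) = z2 at H ⊢
  generalize normSq (a) = z3 at H ⊢
  generalize normSq ((1 - q) * x + q * (1 + q ^ 2) * u + q * (1 + q) * (1 + q ^ 2) * a) = z4 at H ⊢
  generalize normSq (2 * x + q * (1 - q) * u + q * (1 - q ^ 2) * a) = z5 at H ⊢
  generalize normSq ((1 + q) * u - (1 + q ^ 2) * a) = z6 at H ⊢
  generalize ev wAp Q = ywAp at H ⊢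
  generalize ev wBe Q = ywBe at H ⊢
  generalize ev wBp Q = ywBp at H ⊢
  generalize ev wGa Q = ywGa at H ⊢
  generalize ev wGp Q = ywGp at H ⊢
  generalize ev wOne Q = ywOne at H ⊢
  generalize ev pD Q = D at *
  generalize ev pP Q = P at *
  generalize ev pM Q = M at *
  have hG : 0 < ((256 * Q ^ 1 * D ^ 7 * P ^ 1 * M ^ 0) : ℝ) := by positivity
  refine le_of_mul_le_mul_left ?_ hG
  refine le_of_sub_nonneg (le_of_le_of_eq H ?_)
  push_cast
  field_simp
  ring

/-- The whole list of inequalities on the ray. -/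
theorem lmi_rd {Q t : ℝ} {q : ℂ} (r : RD Q t q) : LMI q Q (wt Q) where
  T1 := lT1 r
  T2v1 := lT2v1 r
  T2v3 := lT2v3 r
  T2v13 := lT2v13 r
  T3v1 := lT3v1 r
  T3v3 := lT3v3 r
  T3v13 := lT3v13 r
  T4K := lT4K r
  T4Ka := by
    simp only [wt, wGp, wL2, ev]; push_cast
    nlinarith [r.h0, r.h1, mul_pos r.h0 (sub_pos.2 r.h1)]
  T4b13 := lT4b13 r
  T4b1 := lT4b1 r
  T4c1 := lT4c1 r
  T5v13 := lT5v13 r
  T5v1 := lT5v1 r

/-- The whole list of inequalities on the ray, in terms of `q`. -/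
theorem lmi (Q t : ℝ) (h0 : 0 < Q) (h1 : Q < 1) (ht : t ^ 2 = 3) (q : ℂ)
    (hq : q = (Q : ℂ) * ((-1 + 4 * Q - Q ^ 2) - (1 - Q ^ 2) * (t * I)) / (2 * (1 - Q + Q ^ 2))) :
    LMI q Q (wt Q) :=
  lmi_rd (rd h0 h1 ht hq)

end Pool.Agent.Helper8.S4
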